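import Pool.Agent.N155.G.Gw
import Pool.Agent.N155.B.Sq

/-! Tracking of curves on discs by entire curves. -/

set_option autoImplicit false

open Filter Topology Metric Set MvPolynomial

namespace Pool.Agent.N155.GD

open Pool.Agent.Y190.OP Pool.Agent.N155 Pool.Agent.N155.BB

variable {N : ℕ}

/-- families of curves on discs, with limits in the class `𝒞` -/
structure Dcl (T : Set (Mat N)) (c0 : ℝ) (𝒞 : (ℂ → Mat N) → Prop)
    (𝒟 : ℝ → (ℂ → Mat N) → Prop) : Prop where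
  cls : Cls T c0 𝒞
  hol : ∀ R φ, 𝒟 R φ → HolP (ball 0 R) φ
  mem : ∀ R φ, 𝒟 R φ → ∀ z ∈ ball (0 : ℂ) R, φ z ∈ T
  bd : ∀ R φ, 𝒟 R φ → ∀ z ∈ ball (0 : ℂ) R, ‖fderiv ℝ φ z‖ ≤ 2
  shift : ∀ R φ, 𝒟 R φ → ∀ (t : ℂ) (R' : ℝ), ‖t‖ + R' ≤ R → 𝒟 R' (fun w => φ (t + w))
  lim : ∀ (𝓤 : Ultrafilter ℕ) (R : ℕ → ℝ) (P : ℕ → ℂ → Mat N), (∀ m, 𝒟 (R m) (P m)) →
    Tendsto R 𝓤 atTop → ∃ φ, 𝒞 φ ∧ CConv (𝓤 : Filter ℕ) univ P φ

/-- Lipschitz on a disc -/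
def LipB (R : ℝ) (P : ℂ → Mat N) : Prop :=
  ∀ z ∈ closedBall (0 : ℂ) R, ∀ z' ∈ closedBall (0 : ℂ) R, ‖P z - P z'‖ ≤ 2 * ‖z - z'‖

variable {T : Set (Mat N)} {c0 : ℝ} {𝒞 : (ℂ → Mat N) → Prop} {𝒟 : ℝ → (ℂ → Mat N) → Prop}
  {r c1 η δ : ℝ} {P Q : ℂ → Mat N}

theorem Dcl.lip (h : Dcl T c0 𝒞 𝒟) {R : ℝ} (hP : 𝒟 R P) {z w : ℂ} (hz : z ∈ ball (0 : ℂ) R)
    (hw : w ∈ ball (0 : ℂ) R) : ‖P w - P z‖ ≤ 2 * ‖w - z‖ :=
  (convex_ball (0 : ℂ) R).norm_image_sub_le_of_norm_fderiv_le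
    (fun x hx => (h.hol R P hP).differentiableAt hx) (fun x hx => h.bd R P hP x hx) hz hw

theorem Dcl.lipB (h : Dcl T c0 𝒞 𝒟) {R R' : ℝ} (hP : 𝒟 R P) (hR : R' < R) : LipB R' P :=
  fun z hz z' hz' => by
    exact h.lip hP (closedBall_subset_ball hR hz') (closedBall_subset_ball hR hz)

theorem LipB.mono {R R' : ℝ} (h : LipB R P) (hR : R' ≤ R) : LipB R' P := fun z hz z' hz' =>
  h z (closedBall_subset_closedBall hR hz) z' (closedBall_subset_closedBall hR hz')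

theorem impd (hi : Inj r c1 𝒞) (hQ : 𝒞 Q) {z z' v v' : ℂ} {δ δ' : ℝ}
    (h5 : ‖P z - P z'‖ ≤ 2 * ‖z - z'‖)
    (h1 : ‖P z - Q v‖ ≤ δ) (h2 : ‖P z' - Q v'‖ ≤ δ') (h3 : ‖v - v'‖ ≤ 2 * r) :
    c1 * ‖v - v'‖ ≤ δ + δ' + 2 * ‖z - z'‖ := by
  have h4 := hi Q hQ v' (v - v') h3
  rw [add_sub_cancel] at h4
  have h6 : Q v - Q v' = -(P z - Q v) + (P z' - Q v') + (P z - P z') := by abel
  rw [h6] at h4
  have h7 := norm_add_le (-(P z - Q v) + (P z' - Q v')) (P z - P z')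
  have h8 := norm_add_le (-(P z - Q v)) (P z' - Q v')
  rw [norm_neg] at h8
  linarith

theorem impd0 (hi : Inj r c1 𝒞) (hQ : 𝒞 Q) {z v v' : ℂ} {δ δ' : ℝ}
    (h1 : ‖P z - Q v‖ ≤ δ) (h2 : ‖P z - Q v'‖ ≤ δ') (h3 : ‖v - v'‖ ≤ 2 * r) :
    c1 * ‖v - v'‖ ≤ δ + δ' := by
  have := impd (P := P) (z := z) (z' := z) hi hQ (by simp) h1 h2 h3
  rwa [sub_self, norm_zero, mul_zero, add_zero] at this

theorem stepd (hi : Inj r c1 𝒞) (hr : 0 < r) (hc1 : 0 < c1)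
    (hsm : 2 * δ + 2 * η ≤ c1 * (r / 8)) {R : ℝ} (hP : LipB R P) (hQ : 𝒞 Q) {g : ℂ → ℂ}
    (ht : Trs η r δ R P Q g) {z z' : ℂ} (hz : z ∈ closedBall (0 : ℂ) R)
    (hz' : z' ∈ closedBall (0 : ℂ) R) (hzz : ‖z - z'‖ ≤ η) : ‖g z - g z'‖ ≤ r / 8 := by
  have h1 := impd hi hQ (hP z hz z' hz') (ht.1 z hz) (ht.1 z' hz')
    ((ht.2 z hz z' hz' hzz).trans (by linarith))
  have h2 : c1 * ‖g z - g z'‖ ≤ c1 * (r / 8) := by linarith
  exact le_of_mul_le_mul_left h2 hc1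

theorem chaind (hi : Inj r c1 𝒞) (hr : 0 < r) (hc1 : 0 < c1)
    (hsm : 2 * δ + 2 * η ≤ c1 * (r / 8)) {R : ℝ} (hP : LipB R P) (hQ : 𝒞 Q) {g : ℂ → ℂ}
    (ht : Trs η r δ R P Q g) {z z' : ℂ} (hz : z ∈ closedBall (0 : ℂ) R)
    (hz' : z' ∈ closedBall (0 : ℂ) R) {m : ℕ} (hm : 0 < m) (hzz : ‖z - z'‖ ≤ m * η) :
    ‖g z - g z'‖ ≤ m * (r / 8) := by
  have hm' : (0 : ℝ) < m := by exact_mod_cast hm
  have hmem : ∀ j : ℕ, j ≤ m → z' + ((j / m : ℝ) : ℂ) * (z - z') ∈ closedBall (0 : ℂ) R := by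
    intro j hj
    have h1 : (j / m : ℝ) ≤ 1 := by
      rw [div_le_one hm']
      exact_mod_cast hj
    have h2 := (convex_closedBall (0 : ℂ) R).add_smul_sub_mem hz' hz
      (t := (j / m : ℝ)) ⟨by positivity, h1⟩
    rwa [Complex.real_smul] at h2
  have h1 := chain_lin (c1 := 1) (X := r / 8) (n := m)
    (t := fun j => g (z' + ((j / m : ℝ) : ℂ) * (z - z'))) zero_le_one (fun j hj => by
      rw [one_mul]
      apply stepd hi hr hc1 hsm hP hQ ht (hmem _ hj) (hmem _ hj.le)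
      have e1 : z' + (((j + 1 : ℕ) / m : ℝ) : ℂ) * (z - z') - (z' + ((j / m : ℝ) : ℂ) * (z - z')) =
          ((1 / m : ℝ) : ℂ) * (z - z') := by
        push_cast
        ring
      rw [e1, norm_mul, Complex.norm_real, Real.norm_of_nonneg (by positivity), one_div,
        inv_mul_le_iff₀ hm']
      exact hzz)
  simp only [Nat.cast_zero, zero_div, Complex.ofReal_zero, zero_mul, add_zero, one_mul,
    div_self hm'.ne', Complex.ofReal_one, add_sub_cancel] at h1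
  exact h1

/-- **Extension of a tracking.** -/
theorem extendd (hi : Inj r c1 𝒞) (hr : 0 < r) (hc1 : 0 < c1) (hη : 0 < η)
    (hsm : 2 * δ + 2 * η ≤ c1 * (r / 8)) {R : ℝ} (hP : LipB (R + η) P) (hQ : 𝒞 Q) (hR : 0 ≤ R)
    {g : ℂ → ℂ} (ht : Trs η r δ R P Q g) (hex : ∀ z : ℂ, R < ‖z‖ → ‖z‖ ≤ R + η →
      ∃ w : ℂ, ‖w - g (rp R z)‖ ≤ r / 2 ∧ ‖P z - Q w‖ ≤ δ) :
    ∃ g' : ℂ → ℂ, (∀ z ∈ closedBall (0 : ℂ) R, g' z = g z) ∧ Trs η r δ (R + η) P Q g' := by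
  have hex' : ∀ z : ℂ, ∃ w : ℂ, (‖z‖ ≤ R → w = g z) ∧ (‖z‖ ≤ R + η →
      ‖w - g (rp R z)‖ ≤ r / 2 ∧ ‖P z - Q w‖ ≤ δ) := by
    intro z
    rcases le_or_gt ‖z‖ R with h1 | h1
    · refine ⟨g z, fun _ => rfl, fun _ => ?_⟩
      rw [rp_of_le h1, sub_self, norm_zero]
      exact ⟨by positivity, ht.1 z (mem_closedBall_zero_iff.2 h1)⟩
    · rcases le_or_gt ‖z‖ (R + η) with h2 | h2
      · obtain ⟨w, hw⟩ := hex z h1 h2
        exact ⟨w, fun h => absurd h (not_le.2 h1), fun _ => hw⟩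
      · exact ⟨0, fun h => absurd h (not_le.2 h1), fun h => absurd h (not_le.2 h2)⟩
  choose g' hg1 hg2 using hex'
  refine ⟨g', fun z hz => hg1 z (mem_closedBall_zero_iff.1 hz), ?_, ?_⟩
  · intro z hz
    exact (hg2 z (mem_closedBall_zero_iff.1 hz)).2
  · intro z hz z' hz' hzz
    have hzm := hz
    have hzm' := hz'
    rw [mem_closedBall_zero_iff] at hz hz'
    obtain ⟨a1, a2⟩ := hg2 z hz
    obtain ⟨b1, b2⟩ := hg2 z' hz'
    have h1 : ‖rp R z - rp R z'‖ ≤ (3 : ℕ) * η := by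
      have e1 : rp R z - rp R z' = -(z - rp R z) + (z' - rp R z') + (z - z') := by ring
      rw [e1]
      have h2 := norm_add_le (-(z - rp R z) + (z' - rp R z')) (z - z')
      have h3 := norm_add_le (-(z - rp R z)) (z' - rp R z')
      rw [norm_neg] at h3
      have h4 := rp_dist hR hη.le hz
      have h5 := rp_dist hR hη.le hz'
      push_cast
      linarith
    have h2 := chaind hi hr hc1 hsm (hP.mono (by linarith)) hQ ht (rp_mem hR z) (rp_mem hR z')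
      (by norm_num) h1
    push_cast at h2
    have h3 : ‖g' z - g' z'‖ ≤ 2 * r := by
      have e1 : g' z - g' z' = (g' z - g (rp R z)) + (g (rp R z) - g (rp R z')) -
          (g' z' - g (rp R z')) := by ring
      rw [e1]
      have k1 := norm_sub_le ((g' z - g (rp R z)) + (g (rp R z) - g (rp R z')))
        (g' z' - g (rp R z'))
      have k2 := norm_add_le (g' z - g (rp R z)) (g (rp R z) - g (rp R z'))
      linarith
    have h4 := impd hi hQ (hP z hzm z' hzm') a2 b2 h3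
    have h5 : c1 * ‖g' z - g' z'‖ ≤ c1 * r := by nlinarith
    exact le_of_mul_le_mul_left h5 hc1

/-- two trackings stay close -/
theorem twod (hi : Inj r c1 𝒞) (hr : 0 < r) (hc1 : 0 < c1) (hη : 0 < η)
    (hsm : 2 * δ + 2 * η ≤ c1 * (r / 8)) {R : ℝ} (hP : LipB R P) (hQ : 𝒞 Q) {g b : ℂ → ℂ}
    (ht : Trs η r δ R P Q g) {p0 p1 : ℂ} (hp0 : p0 ∈ closedBall (0 : ℂ) R)
    (hp1 : p1 ∈ closedBall (0 : ℂ) R)
    (hb : ∀ t : ℝ, 0 ≤ t → t ≤ 1 → ‖P (p0 + t * (p1 - p0)) - Q (b (p0 + t * (p1 - p0)))‖ ≤ δ)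
    (hb2 : ∀ z z' : ℂ, ‖z - z'‖ ≤ η → ‖b z - b z'‖ ≤ r / 8) (h0 : ‖g p0 - b p0‖ ≤ 2 * r) :
    ‖g p1 - b p1‖ ≤ r / 8 := by
  set n : ℕ := ⌈‖p1 - p0‖ / η⌉₊ + 1 with hn
  have hn' : (0 : ℝ) < n := by
    rw [hn]
    positivity
  have hnη : ‖p1 - p0‖ ≤ n * η := by
    rw [← div_le_iff₀ hη, hn]
    push_cast
    have := Nat.le_ceil (‖p1 - p0‖ / η)
    linarith
  have hj : ∀ j : ℕ, j ≤ n → 0 ≤ (j / n : ℝ) ∧ (j / n : ℝ) ≤ 1 := by
    intro j hj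
    refine ⟨by positivity, ?_⟩
    rw [div_le_one hn']
    exact_mod_cast hj
  have hmem : ∀ j : ℕ, j ≤ n → p0 + ((j / n : ℝ) : ℂ) * (p1 - p0) ∈ closedBall (0 : ℂ) R := by
    intro j hj'
    have h2 := (convex_closedBall (0 : ℂ) R).add_smul_sub_mem hp0 hp1
      (t := (j / n : ℝ)) (hj j hj')
    rwa [Complex.real_smul] at h2
  have hfin : ∀ z : ℂ, z ∈ closedBall (0 : ℂ) R → ‖P z - Q (b z)‖ ≤ δ → ‖g z - b z‖ ≤ 2 * r →
      ‖g z - b z‖ ≤ r / 8 := by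
    intro z hz h1 h2
    have h3 := impd0 hi hQ (ht.1 z hz) h1 h2
    have h4 : c1 * ‖g z - b z‖ ≤ c1 * (r / 8) := by linarith
    exact le_of_mul_le_mul_left h4 hc1
  have key : ∀ j : ℕ, j ≤ n → ‖g (p0 + ((j / n : ℝ) : ℂ) * (p1 - p0)) -
      b (p0 + ((j / n : ℝ) : ℂ) * (p1 - p0))‖ ≤ r / 8 := by
    intro j
    induction j with
    | zero =>
      intro _
      have e2 : p0 + (((0 : ℕ) / n : ℝ) : ℂ) * (p1 - p0) = p0 := by simp
      rw [e2]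
      refine hfin p0 hp0 ?_ h0
      have h1 := hb 0 le_rfl zero_le_one
      rwa [Complex.ofReal_zero, zero_mul, add_zero] at h1
    | succ j ih =>
      intro hjn
      have h1 := ih (by omega)
      set z := p0 + ((j / n : ℝ) : ℂ) * (p1 - p0) with hz
      set z' := p0 + (((j + 1 : ℕ) / n : ℝ) : ℂ) * (p1 - p0) with hz'
      have hzz : ‖z' - z‖ ≤ η := by
        have e1 : z' - z = ((1 / n : ℝ) : ℂ) * (p1 - p0) := by
          rw [hz, hz']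
          push_cast
          ring
        rw [e1, norm_mul, Complex.norm_real, Real.norm_of_nonneg (by positivity), one_div,
          inv_mul_le_iff₀ hn']
        exact hnη
      have hzm := hmem j (by omega)
      have hzm' := hmem (j + 1) hjn
      refine hfin z' hzm' (hb _ (hj (j + 1) hjn).1 (hj (j + 1) hjn).2) ?_
      have h2 := stepd hi hr hc1 hsm hP hQ ht hzm' hzm hzz
      have h3 := hb2 z' z hzz
      have e1 : g z' - b z' = (g z' - g z) + (g z - b z) - (b z' - b z) := by ring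
      rw [e1]
      have h4 := norm_sub_le ((g z' - g z) + (g z - b z)) (b z' - b z)
      have h5 := norm_add_le (g z' - g z) (g z - b z)
      linarith
  have := key n le_rfl
  rwa [div_self hn'.ne', Complex.ofReal_one, one_mul, add_sub_cancel] at this

/-- the nearest point -/
theorem neard (h : Cls T c0 𝒞) (hi : Inj r c1 𝒞) (hr : 0 < r) (hc1 : 0 < c1)
    (hη : 0 < η) (hsm : 2 * δ + 2 * η ≤ c1 * (r / 8)) (hQ : 𝒞 Q) {R : ℝ} {g : ℂ → ℂ}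
    (ht : Trs η r δ R P Q g) {z : ℂ} (hz : z ∈ closedBall (0 : ℂ) R) :
    ∃ w : ℂ, ‖w - g z‖ ≤ r / 8 ∧ EN r P Q z (g z) = ‖P z - Q w‖ := by
  obtain ⟨w, hw1, hw2⟩ := EN_spec (P := P) hr.le (h.cont hQ) z (g z)
  refine ⟨w, ?_, hw2⟩
  have h1 := ht.en_le hr.le hz
  rw [hw2] at h1
  have h3 := impd0 hi hQ h1 (ht.1 z hz) (hw1.trans (by linarith))
  have h4 : c1 * ‖w - g z‖ ≤ c1 * (r / 8) := by linarith
  exact le_of_mul_le_mul_left h4 hc1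

theorem en_lipd (h : Cls T c0 𝒞) (hi : Inj r c1 𝒞) (hr : 0 < r) (hc1 : 0 < c1)
    (hη : 0 < η) (hsm : 2 * δ + 2 * η ≤ c1 * (r / 8)) {R : ℝ} (hP : LipB R P) (hQ : 𝒞 Q)
    {g : ℂ → ℂ} (ht : Trs η r δ R P Q g) {z z' : ℂ} (hz : z ∈ closedBall (0 : ℂ) R)
    (hz' : z' ∈ closedBall (0 : ℂ) R) (hzz : ‖z - z'‖ ≤ η) :
    EN r P Q z' (g z') ≤ EN r P Q z (g z) + 2 * ‖z' - z‖ := by
  obtain ⟨w, hw1, hw2⟩ := neard h hi hr hc1 hη hsm hQ ht hz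
  have h1 := stepd hi hr hc1 hsm hP hQ ht hz hz' hzz
  have h2 : ‖w - g z'‖ ≤ r := by
    have e1 : w - g z' = (w - g z) + (g z - g z') := by ring
    rw [e1]
    refine (norm_add_le _ _).trans ?_
    linarith
  refine (EN_le h2).trans ?_
  rw [hw2]
  have h3 := hP z' hz' z hz
  have e1 : P z' - Q w = (P z - Q w) + (P z' - P z) := by abel
  rw [e1]
  refine (norm_add_le _ _).trans ?_
  linarith

end Pool.Agent.N155.GD
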