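import Pool.Agent.N155.B.Defs

/-! Holomorphic maps from open sets in the plane to projective sets, of bounded distortion. -/

set_option autoImplicit false

open Filter Topology LinearAlgebra.Projectivization Pool.Agent.W602.GT

namespace Pool.Agent.N155.GD

open Pool.Agent.N155.BB

variable {n : ℕ} {ι : Type}

/-- On the set `U`, `f` is a holomorphic map to the projective set `X = {F = 0}`, and the length of
its derivative at each point `z` of `U`, with respect to the Fubini-Study metric, is at least `c z`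
and at most `C z`; in local homogeneous coordinates `g` near `z` this length is
`|g ∧ g'| / |g| ^ 2`. -/
def HolBetween (F : ι → MvPolynomial (Fin (n + 1)) ℂ) (U : Set ℂ) (c C : ℂ → ℝ)
    (f : ℂ → ℙ ℂ (Fin (n + 1) → ℂ)) : Prop :=
  ∀ z ∈ U, (f z).rep ∈ Cone F ∧ ∃ (V : Set ℂ) (g : ℂ → Fin (n + 1) → ℂ), IsOpen V ∧ z ∈ V ∧
    DifferentiableOn ℂ g V ∧ (∀ w ∈ V, ∃ h : g w ≠ 0, f w = Projectivization.mk ℂ (g w) h) ∧
    c z * ∑ k, ‖g z k‖ ^ 2 ≤ wedge (g z) (deriv g z) ∧
    wedge (g z) (deriv g z) ≤ C z * ∑ k, ‖g z k‖ ^ 2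

/-- The distance of two points of projective space: the sine of the angle of the two lines, which is
the sine of their Fubini-Study distance. -/
noncomputable def chord (p q : ℙ ℂ (Fin (n + 1) → ℂ)) : ℝ :=
  wedge p.rep q.rep / (√(∑ k, ‖p.rep k‖ ^ 2) * √(∑ k, ‖q.rep k‖ ^ 2))

/-- The open set `U` contains an open half-plane. -/
def HasHalfPlane (U : Set ℂ) : Prop := ∃ (u : ℂ) (s : ℝ), u ≠ 0 ∧ ∀ z : ℂ, s < (u * z).re → z ∈ U

end Pool.Agent.N155.GD
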