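import Pool.Agent.N155.A.Sq
import Pool.Agent.N155.G.Ctd

/-! Curves on discs of bounded distortion are close to entire curves. -/

set_option autoImplicit false

open Filter Topology Metric Set MvPolynomial

namespace Pool.Agent.N155.GD

open Pool.Agent.Y190.OP Pool.Agent.W602.GT Pool.Agent.TH143.GT Pool.Agent.N155
  Pool.Agent.N155.BB

variable {N : ℕ} {T : Set (Mat N)} {c0 : ℝ} {𝒞 : (ℂ → Mat N) → Prop}
  {𝒟 : ℝ → (ℂ → Mat N) → Prop} {r c1 η δ δ' : ℝ}

theorem norm_add_le_of_closedBall {z0 : ℂ} {ρ R : ℝ} (hρ : 0 ≤ ρ)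
    (h : ∀ z ∈ closedBall z0 ρ, z ∈ closedBall (0 : ℂ) R) : ‖z0‖ + ρ ≤ R := by
  rcases eq_or_ne z0 0 with rfl | h0
  · have h1 := h (ρ : ℂ) (by
      rw [mem_closedBall_zero_iff, Complex.norm_real, Real.norm_of_nonneg hρ])
    rw [mem_closedBall_zero_iff, Complex.norm_real, Real.norm_of_nonneg hρ] at h1
    rwa [norm_zero, zero_add]
  · have hn : 0 < ‖z0‖ := norm_pos_iff.2 h0
    have h1 := h (z0 + ((ρ / ‖z0‖ : ℝ) : ℂ) * z0) (by
      rw [mem_closedBall, dist_eq_norm, add_sub_cancel_left, norm_mul, Complex.norm_real,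
        Real.norm_of_nonneg (by positivity), div_mul_cancel₀ _ hn.ne'])
    have e1 : z0 + ((ρ / ‖z0‖ : ℝ) : ℂ) * z0 = ((1 + ρ / ‖z0‖ : ℝ) : ℂ) * z0 := by
      push_cast
      ring
    rw [mem_closedBall_zero_iff, e1, norm_mul, Complex.norm_real,
      Real.norm_of_nonneg (by positivity), add_mul, one_mul, div_mul_cancel₀ _ hn.ne'] at h1
    exact h1

theorem barrierd (hd : Dcl T c0 𝒞 𝒟) (hi : Inj r c1 𝒞) (hr : 0 < r) (hc1 : 0 < c1)
    (hη : 0 < η) (hsm : 2 * δ' + 2 * η ≤ c1 * (r / 8)) {ρ θ κ : ℝ} (hCT : CTd ρ δ θ η r 𝒞 𝒟)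
    {P Q : ℂ → Mat N} {ρ0 : ℝ} (hP : 𝒟 ρ0 P) (hQ : 𝒞 Q) (hρ : 0 < ρ) (hδ' : 0 ≤ δ')
    (hδδ : δ' ≤ δ) (hκ : 0 ≤ κ) (hκθ : θ * Real.exp (κ * ρ ^ 2) < 1) (hθ : 0 ≤ θ) {R : ℝ}
    (hR : ρ ≤ R) (hRρ : R + 1 ≤ ρ0) {g : ℂ → ℂ} (ht : Trs η r δ' R P Q g) :
    ∀ z ∈ closedBall (0 : ℂ) R,
      EN r P Q z (g z) ≤ δ' * Real.exp (κ * (‖z‖ ^ 2 - (R - ρ) ^ 2)) := by
  classical
  have h : Cls T c0 𝒞 := hd.cls
  have hPl : LipB R P := hd.lipB hP (by linarith)
  let d : ℂ → ℝ := fun z => if z ∈ closedBall (0 : ℂ) R then EN r P Q z (g z) else δ' + 1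
  have hdz : ∀ z ∈ closedBall (0 : ℂ) R, d z = EN r P Q z (g z) := fun z hz => if_pos hz
  have hd0 : ∀ z, 0 ≤ d z := by
    intro z
    simp only [d]
    split_ifs
    · exact EN_nonneg z _
    · linarith
  have hmem : ∀ z, d z ≤ δ' → z ∈ closedBall (0 : ℂ) R := by
    intro z hz
    by_contra hcon
    simp only [d] at hz
    rw [if_neg hcon] at hz
    linarith
  have hC : Contr ρ δ' θ d := by
    intro z0 hz0 a
    have h1 : ∀ z ∈ closedBall z0 ρ, z ∈ closedBall (0 : ℂ) R := fun z hz => hmem z (hz0 z hz)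
    have h2 := norm_add_le_of_closedBall hρ.le h1
    obtain ⟨z, hz, hz2⟩ := hCT P Q hQ g z0 (hd.shift _ _ hP _ _ (by linarith))
      (fun z hz => (ht.1 z (h1 z hz)).trans hδδ)
      (fun z hz z' hz' hzz => ht.2 z (h1 z hz) z' (h1 z' hz') hzz) a
    refine ⟨z, hz, ?_⟩
    rw [hdz z (h1 z hz), hdz z0 (h1 z0 (mem_closedBall_self hρ.le))]
    exact hz2
  have hc0 : ContinuousOn (fun z => EN r P Q z (g z)) (closedBall 0 R) := by
    intro z hz
    rw [ContinuousWithinAt, tendsto_iff_norm_sub_tendsto_zero]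
    have h1 : Tendsto (fun w => 2 * ‖w - z‖) (𝓝[closedBall 0 R] z) (𝓝 0) := by
      have h2 : Continuous fun w : ℂ => 2 * ‖w - z‖ := by fun_prop
      have h3 := (h2.tendsto z).mono_left (nhdsWithin_le_nhds (s := closedBall 0 R))
      simpa using h3
    refine squeeze_zero' (Eventually.of_forall fun _ => norm_nonneg _) ?_ h1
    have h4 : ∀ᶠ w in 𝓝[closedBall 0 R] z, w ∈ closedBall z η :=
      mem_nhdsWithin_of_mem_nhds (closedBall_mem_nhds z hη)
    filter_upwards [h4, self_mem_nhdsWithin] with w hw hw'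
    rw [mem_closedBall, dist_eq_norm] at hw
    have h5 := en_lipd h hi hr hc1 hη hsm hPl hQ ht hw' hz hw
    have h6 := en_lipd h hi hr hc1 hη hsm hPl hQ ht hz hw' (by rwa [norm_sub_rev])
    rw [norm_sub_rev] at h5
    rw [Real.norm_eq_abs, abs_le]
    constructor <;> linarith
  have hc : ContinuousOn d (closedBall 0 R) := hc0.congr hdz
  intro z hz
  have := N155.barrier hρ.le hδ' hκ hκθ hθ hc hd0 hC hR (fun z hz => by
    rw [hdz z hz]
    exact ht.en_le hr.le hz) z hz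
  rwa [hdz z hz] at this

theorem closed (hi : Inj r c1 𝒞) (hc1 : 0 < c1)
    (hη : 0 < η) (hsm : 2 * δ' + 2 * η ≤ c1 * (r / 8)) {P Q : ℂ → Mat N}
    (hQ : 𝒞 Q) {R : ℝ} {g : ℂ → ℂ} (ht : Trs η r δ' R P Q g) {z w : ℂ}
    (hz : z ∈ closedBall (0 : ℂ) R) (h1 : ‖P z - Q w‖ ≤ δ') (h2 : ‖w - g z‖ ≤ 2 * r) :
    ‖w - g z‖ ≤ r / 8 := by
  have h3 := impd0 hi hQ h1 (ht.1 z hz) h2
  have h4 : c1 * ‖w - g z‖ ≤ c1 * (r / 8) := by linarith
  exact le_of_mul_le_mul_left h4 hc1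

/-- the second alternative does not occur -/
theorem no_faild (hd : Dcl T c0 𝒞 𝒟) (hi : Inj r c1 𝒞) (hr : 0 < r) (hc1 : 0 < c1)
    (hη : 0 < η) (hη1 : η ≤ 1) (hηc : 2 / c0 * η ≤ r / 8)
    (hsm : 2 * δ' + 2 * η ≤ c1 * (r / 8)) {η0 : ℝ} (hηη : η < η0)
    (hule : ∀ H1 H2, 𝒞 H1 → 𝒞 H2 →
      ∀ (b v : ℂ) (S : Set ℂ) (g : ℂ → ℂ), IsOpen S → b ∈ closure S → Tendsto g (𝓝[S] b) (𝓝 v) →
      (∀ z ∈ S, H1 z = H2 (g z)) → H1 b = H2 v →
      ∀ z ∈ ball b η0, ∃ w : ℂ, ‖w - v‖ ≤ r / 2 ∧ H1 z = H2 w)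
    {ρ θ κ : ℝ} (hCT : CTd ρ δ θ η r 𝒞 𝒟) {𝓤 : Ultrafilter ℕ}
    {P Q : ℕ → ℂ → Mat N} {ρ0 : ℕ → ℝ} (hP : ∀ m, 𝒟 (ρ0 m) (P m)) (hQ : ∀ m, 𝒞 (Q m))
    (hρ : 0 < ρ) (hδ' : 0 < δ') (hδδ : δ' ≤ δ) (hκ : 0 < κ) (hκθ : θ * Real.exp (κ * ρ ^ 2) < 1)
    (hθ : 0 ≤ θ) {R : ℕ → ℝ} {g : ℕ → ℂ → ℂ} {z : ℕ → ℂ} (hRt : Tendsto R 𝓤 atTop)
    (hRρ : Tendsto (fun m => ρ0 m - R m) 𝓤 atTop)
    (hfail : ∀ᶠ m in (𝓤 : Filter ℕ), Trs η r δ' (R m) (P m) (Q m) (g m) ∧ R m < ‖z m‖ ∧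
      ‖z m‖ ≤ R m + η ∧ ∀ w : ℂ, ‖w - g m (rp (R m) (z m))‖ ≤ r / 2 → δ' < ‖P m (z m) - Q m w‖) :
    False := by
  have h : Cls T c0 𝒞 := hd.cls
  have hRρ1 : ∀ᶠ m in (𝓤 : Filter ℕ), R m + 1 ≤ ρ0 m := by
    filter_upwards [hRρ.eventually_ge_atTop 1] with m hm
    linarith
  have hPl : ∀ᶠ m in (𝓤 : Filter ℕ), LipB (R m) (P m) := by
    filter_upwards [hRρ1] with m hm
    exact hd.lipB (hP m) (by linarith)
  set v : ℕ → ℂ := fun m => g m (rp (R m) (z m)) with hv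
  obtain ⟨H1, hH1, hcc1⟩ := hd.lim 𝓤 (fun m => ρ0 m - ‖z m‖) (fun m w => P m (z m + w))
    (fun m => hd.shift _ _ (hP m) _ _ (by linarith)) (by
      refine tendsto_atTop_mono' _ ?_ (tendsto_atTop_add_const_right _ (-η) hRρ)
      filter_upwards [hfail] with m hm
      linarith [hm.2.2.1])
  obtain ⟨H2, hH2, hcc2⟩ := h.lim 𝓤 (fun m w => Q m (v m + w)) fun m => h.shift _ (hQ m) _
  -- the direction
  obtain ⟨u, hu⟩ := exists_lim (𝓤 := 𝓤) (h := fun n => z n / (‖z n‖ : ℂ)) (C := 1)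
    (Eventually.of_forall fun n => by
      rw [norm_div, Complex.norm_real, norm_norm]
      exact div_self_le_one _)
  have hu1 : ‖u‖ ≤ 1 := le_of_tendsto hu.norm (Eventually.of_forall fun n => by
      rw [norm_div, Complex.norm_real, norm_norm]
      exact div_self_le_one _)
  set s : ℝ := ρ + 4 with hs
  have hs0 : 0 < s := by rw [hs]; linarith
  have hsn : ‖-(s : ℂ) * u‖ ≤ s := by
    rw [norm_mul, norm_neg, Complex.norm_real, Real.norm_of_nonneg hs0.le]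
    exact mul_le_of_le_one_right hs0.le hu1
  have hRL : ∀ L : ℝ, ∀ᶠ m in (𝓤 : Filter ℕ), L ≤ R m := fun L => hRt.eventually_ge_atTop L
  have hsu : ∀ᶠ m in (𝓤 : Filter ℕ), s * ‖z m / (‖z m‖ : ℂ) - u‖ < η := by
    have h3 : Tendsto (fun n => s * ‖z n / (‖z n‖ : ℂ) - u‖) 𝓤 (𝓝 0) := by
      have := ((hu.sub_const u).norm).const_mul s
      simpa using this
    exact h3.eventually_lt_const hη
  have hgood : ∀ᶠ m in (𝓤 : Filter ℕ), ∀ w ∈ closedBall (-(s : ℂ) * u) 1,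
      ‖z m + w‖ ≤ R m - ρ - 1 := by
    filter_upwards [hsu, hRL s, hfail] with m hm1 hm2 hm3 w hw
    obtain ⟨-, hz1, hz2, -⟩ := hm3
    rw [mem_closedBall, dist_eq_norm] at hw
    have hzpos : 0 < ‖z m‖ := by linarith
    have hzc : (‖z m‖ : ℂ) ≠ 0 := by exact_mod_cast hzpos.ne'
    have h4 : z m + w = ((‖z m‖ - s : ℝ) : ℂ) * (z m / (‖z m‖ : ℂ)) +
        (s : ℂ) * (z m / (‖z m‖ : ℂ) - u) + (w - -(s : ℂ) * u) := by
      push_cast
      field_simp
      ring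
    have hn : ‖((‖z m‖ - s : ℝ) : ℂ) * (z m / (‖z m‖ : ℂ))‖ = ‖z m‖ - s := by
      rw [norm_mul, Complex.norm_real, Real.norm_of_nonneg (by linarith), norm_div,
        Complex.norm_real, norm_norm, div_self hzpos.ne', mul_one]
    have hn2 : ‖(s : ℂ) * (z m / (‖z m‖ : ℂ) - u)‖ < η := by
      rw [norm_mul, Complex.norm_real, Real.norm_of_nonneg hs0.le]
      exact hm1
    rw [h4]
    have h5 := norm_add_le (((‖z m‖ - s : ℝ) : ℂ) * (z m / (‖z m‖ : ℂ)) +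
        (s : ℂ) * (z m / (‖z m‖ : ℂ) - u)) (w - -(s : ℂ) * u)
    have h6 := norm_add_le (((‖z m‖ - s : ℝ) : ℂ) * (z m / (‖z m‖ : ℂ)))
        ((s : ℂ) * (z m / (‖z m‖ : ℂ) - u))
    rw [hn] at h6
    linarith
  have hmem : ∀ᶠ m in (𝓤 : Filter ℕ), ∀ w ∈ closedBall (-(s : ℂ) * u) 1,
      z m + w ∈ closedBall (0 : ℂ) (R m) := by
    filter_upwards [hgood] with m hm w hw
    rw [mem_closedBall_zero_iff]
    linarith [hm w hw]
  -- the nearest points
  choose t ht1 ht2 using fun (m : ℕ) (w : ℂ) =>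
    EN_spec (P := P m) (Q := Q m) hr.le (h.cont (hQ m)) (z m + w) (g m (z m + w))
  have ht3 : ∀ᶠ m in (𝓤 : Filter ℕ), ∀ w ∈ closedBall (-(s : ℂ) * u) 1,
      ‖t m w - g m (z m + w)‖ ≤ r / 8 := by
    filter_upwards [hmem, hfail] with m hm1 hm2 w hw
    have h1 := hm2.1.en_le hr.le (hm1 w hw)
    rw [ht2] at h1
    exact closed hi hc1 hη hsm (hQ m) hm2.1 (hm1 w hw) h1 ((ht1 m w).trans (by linarith))
  set M : ℕ := ⌈(s + 2) / η⌉₊ + 1 with hM
  have hM1 : s + 2 ≤ M * η := by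
    rw [← div_le_iff₀ hη, hM]
    push_cast
    have := Nat.le_ceil ((s + 2) / η)
    linarith
  have ht4 : ∀ᶠ m in (𝓤 : Filter ℕ), ∀ w ∈ closedBall (-(s : ℂ) * u) 1,
      ‖t m w - v m‖ ≤ r / 8 + M * (r / 8) := by
    filter_upwards [hmem, hfail, ht3, hRL 0, hPl] with m hm1 hm2 hm3 hm4 hm5 w hw
    have h1 : ‖z m + w - rp (R m) (z m)‖ ≤ M * η := by
      have h2 := rp_dist hm4 hη.le hm2.2.2.1
      have e1 : z m + w - rp (R m) (z m) = (z m - rp (R m) (z m)) + ((w - -(s : ℂ) * u) +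
          -(s : ℂ) * u) := by ring
      rw [e1]
      rw [mem_closedBall, dist_eq_norm] at hw
      have h3 := norm_add_le (z m - rp (R m) (z m)) ((w - -(s : ℂ) * u) + -(s : ℂ) * u)
      have h4 := norm_add_le (w - -(s : ℂ) * u) (-(s : ℂ) * u)
      linarith
    have h2 := chaind hi hr hc1 hsm hm5 (hQ m) hm2.1 (hm1 w hw) (rp_mem hm4 (z m))
      (by omega : 0 < M) h1
    have e1 : t m w - v m = (t m w - g m (z m + w)) + (g m (z m + w) - g m (rp (R m) (z m))) := by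
      rw [hv]
      ring
    rw [e1]
    exact (norm_add_le _ _).trans (add_le_add (hm3 w hw) h2)
  have hτ : ∀ w : ℂ, ∃ τ : ℂ, w ∈ closedBall (-(s : ℂ) * u) 1 →
      Tendsto (fun m => t m w - v m) 𝓤 (𝓝 τ) := by
    intro w
    by_cases hw : w ∈ closedBall (-(s : ℂ) * u) 1
    · obtain ⟨τ, hτ⟩ := exists_lim (𝓤 := 𝓤) (h := fun m => t m w - v m) (C := r / 8 + M * (r / 8))
        (ht4.mono fun m hm => hm w hw)
      exact ⟨τ, fun _ => hτ⟩
    · exact ⟨0, fun h => absurd h hw⟩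
  choose τ hτ using hτ
  have hexact : ∀ w ∈ closedBall (-(s : ℂ) * u) 1, H1 w = H2 (τ w) := by
    intro w hw
    have hbd : ∀ᶠ m in (𝓤 : Filter ℕ), ‖P m (z m + w) - Q m (v m + (t m w - v m))‖ ≤
        δ' * Real.exp (κ * (-2 * R m + (2 * ρ + 1))) := by
      filter_upwards [hgood, hmem, hfail, hRL (ρ + 1), hRρ1] with m hm1 hm2 hm3 hm4 hm5
      have h1 := barrierd hd hi hr hc1 hη hsm hCT (hP m) (hQ m) hρ hδ'.le hδδ hκ.le hκθ
        hθ (by linarith) hm5 hm3.1 (z m + w) (hm2 w hw)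
      rw [ht2] at h1
      rw [add_sub_cancel]
      refine h1.trans ?_
      apply mul_le_mul_of_nonneg_left _ hδ'.le
      apply Real.exp_le_exp.2
      apply mul_le_mul_of_nonneg_left _ hκ.le
      have h2 := hm1 w hw
      have h3 : ‖z m + w‖ ^ 2 ≤ (R m - ρ - 1) ^ 2 := pow_le_pow_left₀ (norm_nonneg _) h2 2
      nlinarith
    have h3 : Tendsto (fun m => δ' * Real.exp (κ * (-2 * R m + (2 * ρ + 1)))) 𝓤 (𝓝 (δ' * 0)) := by
      apply Tendsto.const_mul
      apply Real.tendsto_exp_atBot.comp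
      apply Tendsto.const_mul_atBot hκ
      apply tendsto_atBot_add_const_right
      exact Tendsto.const_mul_atTop_of_neg (by norm_num) hRt
    rw [mul_zero] at h3
    have h4 : Tendsto (fun m => ‖P m (z m + w) - Q m (v m + (t m w - v m))‖) 𝓤
        (𝓝 ‖H1 w - H2 (τ w)‖) :=
      ((hcc1.pointwise (mem_univ w)).sub (CConv.seq hcc2 (mem_univ (τ w)) (hτ w hw))).norm
    have h5 : ‖H1 w - H2 (τ w)‖ ≤ 0 := le_of_tendsto_of_tendsto h4 h3 hbd
    exact sub_eq_zero.1 (norm_eq_zero.1 (le_antisymm h5 (norm_nonneg _)))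
  have hstep : ∀ w ∈ closedBall (-(s : ℂ) * u) 1, ∀ w' ∈ closedBall (-(s : ℂ) * u) 1,
      ‖w - w'‖ ≤ η → ‖τ w - τ w'‖ ≤ r := by
    intro w hw w' hw' hww
    refine le_of_tendsto ((hτ w hw).sub (hτ w' hw')).norm ?_
    filter_upwards [hmem, hfail, ht3, hPl] with m hm1 hm2 hm3 hm4
    have h1 := stepd hi hr hc1 hsm hm4 (hQ m) hm2.1 (hm1 w hw) (hm1 w' hw') (by
      rwa [add_sub_add_left_eq_sub])
    have h2 := hm3 w hw
    have h3 := hm3 w' hw'
    have e1 : t m w - v m - (t m w' - v m) = (t m w - g m (z m + w)) - (t m w' - g m (z m + w')) +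
        (g m (z m + w) - g m (z m + w')) := by ring
    rw [e1]
    have h4 := norm_add_le ((t m w - g m (z m + w)) - (t m w' - g m (z m + w')))
      (g m (z m + w) - g m (z m + w'))
    have h5 := norm_sub_le (t m w - g m (z m + w)) (t m w' - g m (z m + w'))
    linarith
  have hball : ∀ w ∈ closedBall (0 : ℂ) 1, -(s : ℂ) * u + w ∈ closedBall (-(s : ℂ) * u) 1 := by
    intro w hw
    rw [mem_closedBall_zero_iff] at hw
    rwa [mem_closedBall, dist_eq_norm, add_sub_cancel_left]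
  have hTr : Trs η r 0 1 (fun w => H1 (-(s : ℂ) * u + w)) H2 (fun w => τ (-(s : ℂ) * u + w)) := by
    refine ⟨fun w hw => ?_, fun w hw w' hw' hww => ?_⟩
    · have h1 := hexact _ (hball w hw)
      simp only
      rw [h1, sub_self, norm_zero]
    · exact hstep _ (hball w hw) _ (hball w' hw') (by rwa [add_sub_add_left_eq_sub])
  obtain ⟨α, β', hab1, hab2⟩ := hTr.affine h hi hr hc1 hη (by linarith) hηη hule
    (h.shift _ hH1 _) hH2 one_pos
  set β : ℂ := α * (s * u) + β' with hβ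
  have hall : ∀ w, H1 w = H2 (α * w + β) := by
    intro w
    have h1 := hab1 (w + s * u)
    have e1 : -(s : ℂ) * u + (w + s * u) = w := by ring
    have e2 : α * (w + s * u) + β' = α * w + β := by
      rw [hβ]
      ring
    simp only [e1, e2] at h1
    exact h1
  have hτ0 : τ (-(s : ℂ) * u) = β' := by
    have h1 := hab2 0 (mem_ball_self one_pos)
    simp only [add_zero, mul_zero, zero_add] at h1
    exact h1
  obtain ⟨-, hα⟩ := h.alpha hH1 hH2 hall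
  have hαη : ‖α‖ * η ≤ r / 8 := (mul_le_mul_of_nonneg_right hα hη.le).trans hηc
  have hcc3 : CConv (𝓤 : Filter ℕ) univ (fun m w => Q m (v m + (α * w + β))) H1 := by
    intro w _
    have h3 : Tendsto (fun p : ℕ × ℂ => (p.1, α * p.2 + β)) ((𝓤 : Filter ℕ) ×ˢ 𝓝 w)
        ((𝓤 : Filter ℕ) ×ˢ 𝓝 (α * w + β)) :=
      tendsto_fst.prodMk (((tendsto_snd (f := (𝓤 : Filter ℕ)) (g := 𝓝 w)).const_mul α).add_const β)
    have h4 := (hcc2 (α * w + β) (mem_univ _)).comp h3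
    rw [hall w]
    exact h4
  have hfin := CConv.compact hcc1 hcc3 (isCompact_closedBall (0 : ℂ) (s + 2)) hδ'
  have hτlim : ∀ᶠ m in (𝓤 : Filter ℕ), ‖t m (-(s : ℂ) * u) - v m - β'‖ < r / 8 := by
    have h1 := ((hτ (-(s : ℂ) * u) (mem_closedBall_self zero_le_one)).sub_const β').norm
    rw [hτ0, sub_self, norm_zero] at h1
    exact h1.eventually_lt_const (by positivity)
  obtain ⟨m, k1, k2, k3, k4, k5, k6, k7, k8⟩ := (hfail.and (hsu.and (hfin.and (hτlim.and (ht3.and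
    (hmem.and ((hRL s).and hPl))))))).exists
  obtain ⟨l1, l2, l3, l4⟩ := k1
  have hzpos : 0 < ‖z m‖ := by linarith
  have hzc : (‖z m‖ : ℂ) ≠ 0 := by exact_mod_cast hzpos.ne'
  have hR0 : 0 ≤ R m := by linarith
  set um : ℂ := z m / (‖z m‖ : ℂ) with hum
  have hum1 : ‖um‖ = 1 := by
    rw [hum, norm_div, Complex.norm_real, norm_norm, div_self hzpos.ne']
  have hzu : z m = (‖z m‖ : ℂ) * um := by
    rw [hum]
    field_simp
  set p0 : ℂ := z m - s * um with hp0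
  set p1 : ℂ := rp (R m) (z m) with hp1
  have hp0m : p0 ∈ closedBall (0 : ℂ) (R m) := by
    have e1 : p0 = ((‖z m‖ - s : ℝ) : ℂ) * um := by
      rw [hp0]
      conv_lhs => rw [hzu]
      push_cast
      ring
    rw [mem_closedBall_zero_iff, e1, norm_mul, hum1, mul_one, Complex.norm_real,
      Real.norm_of_nonneg (by linarith)]
    linarith
  have hp1m : p1 ∈ closedBall (0 : ℂ) (R m) := rp_mem hR0 _
  have hp0n : ‖p0 - z m‖ = s := by
    have e1 : p0 - z m = -((s : ℂ) * um) := by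
      rw [hp0]
      ring
    rw [e1, norm_neg, norm_mul, hum1, mul_one, Complex.norm_real, Real.norm_of_nonneg hs0.le]
  have hp1n : ‖p1 - z m‖ ≤ η := by
    rw [norm_sub_rev]
    exact rp_dist hR0 hη.le l3
  have hfinal := twod hi hr hc1 hη hsm k8 (hQ m) l1 hp0m hp1m
    (b := fun p => v m + (α * (p - z m) + β)) (fun t' ht0 ht1' => by
      have h1 := k3 (p0 + t' * (p1 - p0) - z m) (by
        rw [mem_closedBall_zero_iff]
        have e1 : p0 + t' * (p1 - p0) - z m = ((1 - t' : ℝ) : ℂ) * (p0 - z m) +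
            (t' : ℂ) * (p1 - z m) := by
          push_cast
          ring
        rw [e1]
        refine (norm_add_le _ _).trans ?_
        rw [norm_mul, norm_mul, Complex.norm_real, Complex.norm_real,
          Real.norm_of_nonneg (by linarith), Real.norm_of_nonneg ht0, hp0n]
        nlinarith [norm_nonneg (p1 - z m)])
      rw [add_sub_cancel] at h1
      exact h1.le) (fun a b hab => by
      have e1 : v m + (α * (a - z m) + β) - (v m + (α * (b - z m) + β)) = α * (a - b) := by ring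
      rw [e1, norm_mul]
      exact (mul_le_mul_of_nonneg_left hab (norm_nonneg _)).trans hαη) (by
      have hw0 := mem_closedBall_self (x := (-(s : ℂ) * u)) zero_le_one
      have a1 : ‖g m p0 - g m (z m + -(s : ℂ) * u)‖ ≤ r / 8 := by
        refine stepd hi hr hc1 hsm k8 (hQ m) l1 hp0m (k6 _ hw0) ?_
        have e1 : p0 - (z m + -(s : ℂ) * u) = -((s : ℂ) * (um - u)) := by
          rw [hp0]
          ring
        rw [e1, norm_neg, norm_mul, Complex.norm_real, Real.norm_of_nonneg hs0.le]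
        exact k2.le
      have a2 := k5 _ hw0
      have a3 := k4
      have a4 : ‖α * ((s : ℂ) * (um - u))‖ ≤ r / 8 := by
        rw [norm_mul, norm_mul, Complex.norm_real, Real.norm_of_nonneg hs0.le]
        exact (mul_le_mul_of_nonneg_left k2.le (norm_nonneg _)).trans hαη
      have e1 : g m p0 - (v m + (α * (p0 - z m) + β)) = (g m p0 - g m (z m + -(s : ℂ) * u)) -
          (t m (-(s : ℂ) * u) - g m (z m + -(s : ℂ) * u)) + (t m (-(s : ℂ) * u) - v m - β') +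
          α * ((s : ℂ) * (um - u)) := by
        rw [hp0, hβ]
        ring
      rw [e1]
      have b1 := norm_add_le ((g m p0 - g m (z m + -(s : ℂ) * u)) -
          (t m (-(s : ℂ) * u) - g m (z m + -(s : ℂ) * u)) + (t m (-(s : ℂ) * u) - v m - β'))
          (α * ((s : ℂ) * (um - u)))
      have b2 := norm_add_le ((g m p0 - g m (z m + -(s : ℂ) * u)) -
          (t m (-(s : ℂ) * u) - g m (z m + -(s : ℂ) * u))) (t m (-(s : ℂ) * u) - v m - β')
      have b3 := norm_sub_le (g m p0 - g m (z m + -(s : ℂ) * u))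
          (t m (-(s : ℂ) * u) - g m (z m + -(s : ℂ) * u))
      linarith)
  have hβr : ‖β‖ ≤ r / 4 := by
    have e1 : β = -(g m p1 - (v m + (α * (p1 - z m) + β))) - α * (p1 - z m) := by
      have : g m p1 = v m := rfl
      rw [this]
      ring
    rw [e1]
    refine (norm_sub_le _ _).trans ?_
    rw [norm_neg, norm_mul]
    have h1 := mul_le_mul_of_nonneg_left hp1n (norm_nonneg α)
    linarith
  have h1 := l4 (v m + β) (by
    change ‖v m + β - v m‖ ≤ r / 2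
    rw [add_sub_cancel_left]
    linarith)
  have h2 := k3 0 (mem_closedBall_self (by linarith))
  rw [mul_zero, zero_add, add_zero] at h2
  linarith


end Pool.Agent.N155.GD
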