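import Pool.Agent.N155.B.Pd
import Pool.Agent.N155.G.Sqd

/-! Curves on discs of bounded distortion are close to entire curves. -/

set_option autoImplicit false

open Filter Topology Metric Set MvPolynomial

namespace Pool.Agent.N155.GD

open Pool.Agent.Y190.OP Pool.Agent.W602.GT Pool.Agent.TH143.GT Pool.Agent.N155
  Pool.Agent.N155.BB

variable {N : ℕ} {T : Set (Mat N)} {c0 : ℝ} {𝒞 : (ℂ → Mat N) → Prop}
  {𝒟 : ℝ → (ℂ → Mat N) → Prop} {r c1 η δ δ' : ℝ}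

theorem trs_mono {P Q : ℂ → Mat N} {g : ℂ → ℂ} {R R' : ℝ} (h : Trs η r δ R P Q g) (hR : R' ≤ R) :
    Trs η r δ R' P Q g :=
  ⟨fun z hz => h.1 z (closedBall_subset_closedBall hR hz), fun z hz z' hz' =>
    h.2 z (closedBall_subset_closedBall hR hz) z' (closedBall_subset_closedBall hR hz')⟩

/-- a tracking ends -/
theorem trs_end (hd : Dcl T c0 𝒞 𝒟) (hi : Inj r c1 𝒞) (hr : 0 < r) (hc1 : 0 < c1)
    (hη : 0 < η) (hη1 : η ≤ 1) (hηr : η ≤ r / 8) (hsm : 2 * δ' + 2 * η ≤ c1 * (r / 8))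
    {P Q : ℂ → Mat N} {ρ0 R1 L : ℝ} (hP : 𝒟 ρ0 P) (hQ : 𝒞 Q) (hR1 : 1 < R1) (hL : 0 ≤ L)
    (hLt : ∀ z ∈ closedBall (0 : ℂ) L, ‖P z - Q z‖ ≤ δ')
    (hno : ∀ g : ℂ → ℂ, ¬ Trs η r δ' (ρ0 - R1) P Q g) :
    ∃ (R : ℝ) (g : ℂ → ℂ) (z : ℂ), L ≤ R ∧ R ≤ ρ0 - R1 ∧ Trs η r δ' R P Q g ∧ R < ‖z‖ ∧
      ‖z‖ ≤ R + η ∧ ∀ w : ℂ, ‖w - g (rp R z)‖ ≤ r / 2 → δ' < ‖P z - Q w‖ := by
  classical
  have hex : ∃ k : ℕ, ∀ g : ℂ → ℂ, ¬ Trs η r δ' (L + k * η) P Q g := by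
    refine ⟨⌈(ρ0 - R1) / η⌉₊, fun g hg => hno g (trs_mono hg ?_)⟩
    have h1 := Nat.le_ceil ((ρ0 - R1) / η)
    rw [div_le_iff₀ hη] at h1
    linarith
  have h1 := Nat.find_spec hex
  have h2 : Nat.find hex ≠ 0 := by
    intro h0
    rw [h0] at h1
    apply h1 (fun z => z)
    rw [Nat.cast_zero, zero_mul, add_zero]
    exact ⟨hLt, fun z _ z' _ hzz => hzz.trans (by linarith)⟩
  obtain ⟨k, hk⟩ := Nat.exists_eq_succ_of_ne_zero h2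
  have h3 := Nat.find_min hex (m := k) (by omega)
  push Not at h3
  obtain ⟨g, hg2⟩ := h3
  rw [hk] at h1
  have hR0 : 0 ≤ L + k * η := by positivity
  have hRρ : L + k * η ≤ ρ0 - R1 := by
    by_contra hcon
    exact hno g (trs_mono hg2 (not_le.1 hcon).le)
  have hPl : LipB (L + k * η + η) P := hd.lipB hP (by linarith)
  by_contra hcon
  push Not at hcon
  obtain ⟨g', hg'1, hg'2⟩ := extendd hi hr hc1 hη hsm hPl hQ hR0 hg2 (by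
    intro z hz1 hz2
    obtain ⟨w, hw1, hw2⟩ := hcon (L + k * η) g z (by
      have : 0 ≤ (k : ℝ) * η := by positivity
      linarith) hRρ hg2 hz1 hz2
    exact ⟨w, hw1, hw2⟩)
  apply h1 g'
  have e1 : L + ((k.succ : ℕ) : ℝ) * η = L + k * η + η := by
    push_cast
    ring
  rwa [e1]

/-- trackings exist -/
theorem exists_track (hd : Dcl T c0 𝒞 𝒟) (hi : Inj r c1 𝒞) (hr : 0 < r) (hc1 : 0 < c1)
    (hη : 0 < η) (hη1 : η ≤ 1) (hηr : η ≤ r / 8) (hηc : 2 / c0 * η ≤ r / 8)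
    (hsm : 2 * δ' + 2 * η ≤ c1 * (r / 8)) {η0 : ℝ} (hηη : η < η0)
    (hule : ∀ H1 H2, 𝒞 H1 → 𝒞 H2 →
      ∀ (b v : ℂ) (S : Set ℂ) (g : ℂ → ℂ), IsOpen S → b ∈ closure S → Tendsto g (𝓝[S] b) (𝓝 v) →
      (∀ z ∈ S, H1 z = H2 (g z)) → H1 b = H2 v →
      ∀ z ∈ ball b η0, ∃ w : ℂ, ‖w - v‖ ≤ r / 2 ∧ H1 z = H2 w)
    {ρ θ κ : ℝ} (hCT : CTd ρ δ θ η r 𝒞 𝒟)
    (hρ : 0 < ρ) (hδ' : 0 < δ') (hδδ : δ' ≤ δ) (hκ : 0 < κ) (hκθ : θ * Real.exp (κ * ρ ^ 2) < 1)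
    (hθ : 0 ≤ θ) : ∃ R1 : ℝ, 1 ≤ R1 ∧ ∀ (ρ0 : ℝ) (P : ℂ → Mat N), R1 ≤ ρ0 → 𝒟 ρ0 P →
      ∃ (Q : ℂ → Mat N) (g : ℂ → ℂ), 𝒞 Q ∧ Trs η r δ' (ρ0 - R1) P Q g := by
  classical
  have h : Cls T c0 𝒞 := hd.cls
  by_contra hcon
  push Not at hcon
  have hseq : ∀ m : ℕ, ∃ (ρ0 : ℝ) (P : ℂ → Mat N), (m + 2 : ℝ) ≤ ρ0 ∧ 𝒟 ρ0 P ∧
      ∀ (Q : ℂ → Mat N) (g : ℂ → ℂ), 𝒞 Q → ¬ Trs η r δ' (ρ0 - (m + 2)) P Q g := fun m =>
    hcon (m + 2) (by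
      have : (0 : ℝ) ≤ m := Nat.cast_nonneg m
      linarith)
  choose ρ0 P hρ0 hP hno using hseq
  set 𝓤 : Ultrafilter ℕ := hyperfilter ℕ with h𝓤
  obtain ⟨H, hH, hcc⟩ := hd.lim 𝓤 ρ0 P hP (Filter.tendsto_atTop.2 fun b => by
    filter_upwards [hyp_ge b] with m hm
    linarith [hρ0 m])
  have hHlim : CConv (𝓤 : Filter ℕ) univ (fun _ => H) H := by
    intro z _
    have h1 : ContinuousAt H z := (h.hol H hH).continuousAt (mem_univ z)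
    exact h1.tendsto.comp tendsto_snd
  set L : ℕ → ℕ := fun m => Nat.findGreatest
    (fun k => ∀ z ∈ closedBall (0 : ℂ) (k : ℝ), ‖P m z - H z‖ ≤ δ') m with hL
  have hLk : ∀ k : ℕ, ∀ᶠ m in (𝓤 : Filter ℕ), k ≤ L m ∧
      ∀ z ∈ closedBall (0 : ℂ) (L m : ℝ), ‖P m z - H z‖ ≤ δ' := by
    intro k
    filter_upwards [CConv.compact hcc hHlim (isCompact_closedBall (0 : ℂ) (k : ℝ)) hδ',
      hyp_ge (k : ℝ)] with m hm1 hm2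
    have h3 : ∀ z ∈ closedBall (0 : ℂ) (k : ℝ), ‖P m z - H z‖ ≤ δ' := fun z hz => (hm1 z hz).le
    have h4 : k ≤ m := by exact_mod_cast hm2
    exact ⟨Nat.le_findGreatest h4 h3, Nat.findGreatest_spec
      (P := fun k : ℕ => ∀ z ∈ closedBall (0 : ℂ) (k : ℝ), ‖P m z - H z‖ ≤ δ') h4 h3⟩
  have hex : ∀ m, ∃ (R : ℝ) (g : ℂ → ℂ) (z : ℂ),
      (∀ z ∈ closedBall (0 : ℂ) (L m : ℝ), ‖P m z - H z‖ ≤ δ') →
      (L m : ℝ) ≤ R ∧ R ≤ ρ0 m - (m + 2) ∧ Trs η r δ' R (P m) H g ∧ R < ‖z‖ ∧ ‖z‖ ≤ R + η ∧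
      ∀ w : ℂ, ‖w - g (rp R z)‖ ≤ r / 2 → δ' < ‖P m z - H w‖ := by
    intro m
    by_cases a3 : ∀ z ∈ closedBall (0 : ℂ) (L m : ℝ), ‖P m z - H z‖ ≤ δ'
    swap
    · exact ⟨0, 0, 0, fun h => absurd h a3⟩
    obtain ⟨R, g, z, b2⟩ := trs_end hd hi hr hc1 hη hη1 hηr hsm (hP m) hH (R1 := m + 2)
      (by
        have : (0 : ℝ) ≤ m := Nat.cast_nonneg m
        linarith) (Nat.cast_nonneg _) a3 fun g => hno m H g hH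
    exact ⟨R, g, z, fun _ => b2⟩
  choose R g z hall using hex
  have hall' : ∀ k : ℕ, ∀ᶠ m in (𝓤 : Filter ℕ), (k : ℝ) ≤ R m ∧ R m ≤ ρ0 m - (m + 2) ∧
      Trs η r δ' (R m) (P m) H (g m) ∧ R m < ‖z m‖ ∧ ‖z m‖ ≤ R m + η ∧
      ∀ w : ℂ, ‖w - g m (rp (R m) (z m))‖ ≤ r / 2 → δ' < ‖P m (z m) - H w‖ := by
    intro k
    filter_upwards [hLk (k + 1)] with m hm2
    obtain ⟨c1, c2⟩ := hall m hm2.2
    refine ⟨le_trans ?_ c1, c2⟩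
    have : k ≤ L m := by omega
    exact_mod_cast this
  refine no_faild hd hi hr hc1 hη hη1 hηc hsm hηη hule hCT (Q := fun _ => H) hP (fun _ => hH) hρ
    hδ' hδδ hκ hκθ hθ (𝓤 := 𝓤) (R := R) (g := g) (z := z) ?_ ?_ ?_
  · apply Filter.tendsto_atTop.2
    intro b
    filter_upwards [hall' ⌈b⌉₊] with m hm
    exact (Nat.le_ceil b).trans hm.1
  · apply Filter.tendsto_atTop.2
    intro b
    filter_upwards [hall' 0, hyp_ge b] with m hm hm2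
    linarith [hm.2.1]
  · filter_upwards [hall' 0] with m hm
    exact hm.2.2

/-- **Curves on discs are close to entire curves.** -/
theorem disc_close {Z : Set (Mat N)} {κ : Type}
    {ω : κ → (Fin N → ℂ) → (Fin N → ℂ) → (Fin N → ℂ) → ℂ} (hG : GW T Z ω)
    (hZ : ∀ φ, 𝒞 φ → ∃ z, φ z ∉ Z) (hd : Dcl T c0 𝒞 𝒟) :
    ∃ R0 κ : ℝ, 0 < R0 ∧ 0 < κ ∧ ∀ (ρ0 : ℝ) (P : ℂ → Mat N), R0 ≤ ρ0 → 𝒟 ρ0 P →
      ∃ Q : ℂ → Mat N, 𝒞 Q ∧ ∀ z : ℂ, ‖z‖ ≤ ρ0 - R0 → ∃ w : ℂ,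
        ‖P z - Q w‖ ≤ Real.exp (-κ * (ρ0 ^ 2 - ‖z‖ ^ 2)) := by
  have h : Cls T c0 𝒞 := hd.cls
  have hc0 := h.pos
  obtain ⟨r0, c1, hr0, hc1, hinj0⟩ := h.inj
  set r : ℝ := min r0 (c0 / 4) with hrdef
  have hr : 0 < r := by positivity
  have hi : Inj r c1 𝒞 := by
    intro φ hφ z t ht
    exact hinj0 φ hφ z t (ht.trans (by linarith [min_le_left r0 (c0 / 4)]))
  obtain ⟨η0, hη0, hule⟩ := h.ule hr
  set η : ℝ := min (min (η0 / 2) 1) (min (r / 8) (min (c0 * (r / 16)) (c1 * (r / 32)))) with hηdef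
  have hη : 0 < η := by positivity
  have e1 : η ≤ η0 / 2 := (min_le_left _ _).trans (min_le_left _ _)
  have e2 : η ≤ 1 := (min_le_left _ _).trans (min_le_right _ _)
  have e3 : η ≤ r / 8 := (min_le_right _ _).trans (min_le_left _ _)
  have e4 : η ≤ c0 * (r / 16) := (min_le_right _ _).trans ((min_le_right _ _).trans
    (min_le_left _ _))
  have e5 : η ≤ c1 * (r / 32) := (min_le_right _ _).trans ((min_le_right _ _).trans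
    (min_le_right _ _))
  have hηc : 2 / c0 * η ≤ r / 8 := by
    rw [div_mul_eq_mul_div, div_le_iff₀ hc0]
    linarith
  have hηη : η < η0 := by linarith
  obtain ⟨ρ, δ, θ, hρ, hδ, hθ0, hθ, hCT⟩ := contr_d hG hZ hd hi hr hc1 hη (by linarith) hηη hule
  obtain ⟨κ, hκ, hκθ⟩ := exists_kappa hρ hθ0 hθ
  set δ' : ℝ := min (min δ 1) (c1 * (r / 32)) with hδ'
  have hδ'0 : 0 < δ' := by positivity
  have hδ'1 : δ' ≤ δ := (min_le_left _ _).trans (min_le_left _ _)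
  have hδ'3 : δ' ≤ 1 := (min_le_left _ _).trans (min_le_right _ _)
  have hδ'2 : δ' ≤ c1 * (r / 32) := min_le_right _ _
  have hsm' : 2 * δ' + 2 * η ≤ c1 * (r / 8) := by linarith
  obtain ⟨R1, hR1, htr⟩ := exists_track hd hi hr hc1 hη e2 e3 hηc hsm' hηη hule hCT hρ hδ'0 hδ'1
    hκ hκθ hθ0.le
  refine ⟨4 * (R1 + ρ), κ / 2, by positivity, by positivity, fun ρ0 P hρ0 hP => ?_⟩
  obtain ⟨Q, g, hQ, ht⟩ := htr ρ0 P (by linarith) hP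
  refine ⟨Q, hQ, fun z hz => ?_⟩
  have hz' : z ∈ closedBall (0 : ℂ) (ρ0 - R1) := by
    rw [mem_closedBall_zero_iff]
    linarith
  obtain ⟨w, -, hw2⟩ := EN_spec (P := P) hr.le (h.cont hQ) z (g z)
  refine ⟨w, ?_⟩
  rw [← hw2]
  refine (barrierd hd hi hr hc1 hη hsm' hCT hP hQ hρ hδ'0.le hδ'1 hκ.le hκθ hθ0.le
    (by linarith) (by linarith) ht z hz').trans ?_
  refine (mul_le_of_le_one_left (Real.exp_pos _).le hδ'3).trans ?_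
  apply Real.exp_le_exp.2
  have h0 := norm_nonneg z
  have h1 : ‖z‖ ^ 2 ≤ (ρ0 - 4 * (R1 + ρ)) ^ 2 := pow_le_pow_left₀ h0 hz 2
  have h2 : 2 * (‖z‖ ^ 2 - (ρ0 - R1 - ρ) ^ 2) ≤ -(ρ0 ^ 2 - ‖z‖ ^ 2) := by
    have h3 : 0 ≤ (R1 + ρ) * (ρ0 - 4 * (R1 + ρ)) := mul_nonneg (by linarith) (by linarith)
    have h4 : 0 < (R1 + ρ) ^ 2 := by positivity
    nlinarith
  nlinarith

end Pool.Agent.N155.GD
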