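import Pool.Agent.N155.B.Fin
import Pool.Agent.N155.G.Gss

/-! Curves on discs whose derivative is bounded above and below. -/

set_option autoImplicit false

open Filter Topology Metric Set MvPolynomial

namespace Pool.Agent.N155.GD

open Pool.Agent.Y190.OP Pool.Agent.W602.GT Pool.Agent.TH143.GT Pool.Agent.N155
  Pool.Agent.N155.BB

variable {N : ℕ}

/-- limits of curves on growing discs -/
theorem exists_limitd {T : Set (Mat N)} (hT : IsCompact T) (hTP : T ⊆ PM) {𝓤 : Ultrafilter ℕ}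
    {h : ℕ → ℂ → Mat N} {K : ℝ} (hH : ∀ L : ℝ, ∀ᶠ n in (𝓤 : Filter ℕ), HolP (ball 0 L) (h n))
    (hm : ∀ L : ℝ, ∀ᶠ n in (𝓤 : Filter ℕ), ∀ z ∈ ball (0 : ℂ) L, h n z ∈ T)
    (hb : ∀ L : ℝ, ∀ᶠ n in (𝓤 : Filter ℕ), ∀ z ∈ ball (0 : ℂ) L, ‖fderiv ℝ (h n) z‖ ≤ K) :
    ∃ H : ℂ → Mat N, HolP univ H ∧ (∀ z, H z ∈ T) ∧ CConv (𝓤 : Filter ℕ) univ h H ∧
      ∀ z, Tendsto (fun n => fderiv ℝ (h n) z) 𝓤 (𝓝 (fderiv ℝ H z)) := by
  have hzb : ∀ z : ℂ, z ∈ ball (0 : ℂ) (‖z‖ + 1) := fun z =>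
    mem_ball_zero_iff.2 (lt_add_one _)
  have hlim : ∀ z : ℂ, ∃ y ∈ T, Tendsto (fun n => h n z) 𝓤 (𝓝 y) := by
    intro z
    have h1 : (𝓤.map (fun n => h n z) : Filter (Mat N)) ≤ 𝓟 T := by
      rw [Ultrafilter.coe_map, le_principal_iff, mem_map]
      filter_upwards [hm (‖z‖ + 1)] with n hn
      exact hn z (hzb z)
    obtain ⟨y, hy, hy'⟩ := hT.ultrafilter_le_nhds (𝓤.map (fun n => h n z)) h1
    exact ⟨y, hy, hy'⟩
  choose H hHmem hHt using hlim
  have hCC : CConv (𝓤 : Filter ℕ) univ h H := by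
    intro z _
    rw [Metric.tendsto_nhds]
    intro ε hε
    have h2 := Metric.tendsto_nhds.1 (hHt z) (ε / 2) (by positivity)
    rw [eventually_prod_iff]
    refine ⟨_, h2.and ((hH (‖z‖ + 1)).and (hb (‖z‖ + 1))),
      fun w => K * ‖w - z‖ < ε / 2 ∧ w ∈ ball (0 : ℂ) (‖z‖ + 1), ?_, ?_⟩
    · have h5 : Tendsto (fun w => K * ‖w - z‖) (𝓝 z) (𝓝 0) := by
        have : Continuous fun w : ℂ => K * ‖w - z‖ := by fun_prop
        have h6 := this.tendsto z
        simpa using h6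
      exact (h5.eventually_lt_const (by positivity)).and (isOpen_ball.mem_nhds (hzb z))
    · rintro n ⟨hn, hn1, hn2⟩ w ⟨hw, hw1⟩
      have h6 : ‖h n w - h n z‖ ≤ K * ‖w - z‖ :=
        (convex_ball (0 : ℂ) (‖z‖ + 1)).norm_image_sub_le_of_norm_fderiv_le
          (fun x hx => hn1.differentiableAt hx)
          (fun x hx => hn2 x hx) (hzb z) hw1
      calc dist (h n w) (H z) ≤ dist (h n w) (h n z) + dist (h n z) (H z) := dist_triangle _ _ _
        _ < ε / 2 + ε / 2 := by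
            refine add_lt_add ?_ hn
            rw [dist_eq_norm]
            exact h6.trans_lt hw
        _ = ε := by ring
  have hl : ∀ L : ℝ, HolP (ball 0 L) H ∧ ∀ z ∈ ball (0 : ℂ) L,
      Tendsto (fun n => fderiv ℝ (h n) z) 𝓤 (𝓝 (fderiv ℝ H z)) := fun L =>
    holP_limit isOpen_ball (fun z _ => hCC z (mem_univ z)) (hH L) (fun z _ => hTP (hHmem z))
  exact ⟨H, fun z _ => (hl (‖z‖ + 1)).1 z (hzb z), hHmem, hCC, fun z =>
    (hl (‖z‖ + 1)).2 z (hzb z)⟩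

/-- the curves on the disc of radius `R` in `T` whose derivative is bounded above and below -/
structure Dw (T : Set (Mat N)) (c0 R : ℝ) (φ : ℂ → Mat N) : Prop where
  hol : HolP (ball 0 R) φ
  mem : ∀ z ∈ ball (0 : ℂ) R, φ z ∈ T
  bd : ∀ z ∈ ball (0 : ℂ) R, ‖fderiv ℝ φ z‖ ≤ 2
  low : ∀ z ∈ ball (0 : ℂ) R, c0 ≤ ‖fderiv ℝ φ z‖

theorem dcl_of {T : Set (Mat N)} (hT : IsCompact T) (hTP : T ⊆ PM) {c0 : ℝ}
    (hc0 : 0 < c0) : Dcl T c0 (BCw T c0) (Dw T c0) where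
  cls := BCw.cls hT hTP hc0
  hol := fun R φ h => h.hol
  mem := fun R φ h => h.mem
  bd := fun R φ h => h.bd
  shift := fun R φ h t R' hR => by
    have hb : ∀ z ∈ ball (0 : ℂ) R', t + z ∈ ball (0 : ℂ) R := by
      intro z hz
      rw [mem_ball_zero_iff] at hz ⊢
      have := norm_add_le t z
      linarith
    exact ⟨holP_comp h.hol (g := fun z => t + z) (by fun_prop) hb, fun z hz => h.mem _ (hb z hz),
      fun z hz => by rw [fderiv_shift]; exact h.bd _ (hb z hz),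
      fun z hz => by rw [fderiv_shift]; exact h.low _ (hb z hz)⟩
  lim := fun 𝓤 R P hP hR => by
    have hs : ∀ L : ℝ, ∀ᶠ n in (𝓤 : Filter ℕ), ball (0 : ℂ) L ⊆ ball 0 (R n) := fun L => by
      filter_upwards [hR.eventually_ge_atTop L] with n hn
      exact ball_subset_ball hn
    obtain ⟨φ, h1, h2, h3, h4⟩ := exists_limitd hT hTP (𝓤 := 𝓤) (h := P) (K := 2)
      (fun L => (hs L).mono fun n hn => (hP n).hol.mono hn)
      (fun L => (hs L).mono fun n hn z hz => (hP n).mem z (hn hz))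
      (fun L => (hs L).mono fun n hn z hz => (hP n).bd z (hn hz))
    refine ⟨φ, ⟨h1, h2, fun z => le_of_tendsto (h4 z).norm ?_,
      fun z => ge_of_tendsto (h4 z).norm ?_⟩, h3⟩
    · exact (hs (‖z‖ + 1)).mono fun n hn => (hP n).bd z (hn (mem_ball_zero_iff.2 (lt_add_one _)))
    · exact (hs (‖z‖ + 1)).mono fun n hn => (hP n).low z (hn (mem_ball_zero_iff.2 (lt_add_one _)))

end Pool.Agent.N155.GD
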