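import Pool.Agent.N155.A.Ule
import Pool.Agent.N155.G.Dsc

/-! Continuation of the curves which are locally reparametrisations of an entire curve. -/

set_option autoImplicit false

open Filter Topology Metric Set MvPolynomial

namespace Pool.Agent.N155.GD

open Pool.Agent.Y190.OP Pool.Agent.W602.GT Pool.Agent.TH143.GT Pool.Agent.N155
  Pool.Agent.N155.BB

variable {N : ℕ} {U : Set ℂ} {f Q : ℂ → Mat N}

/-- the points near which `f` is a reparametrisation of `Q` -/
def Loc (f Q : ℂ → Mat N) : Set ℂ :=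
  {z | ∃ h : ℂ → ℂ, ContinuousAt h z ∧ ∀ᶠ z' in 𝓝 z, f z' = Q (h z')}

/-- local continuation -/
theorem loc_cont (hU : IsOpen U) (hf : HolP U f) (hQ : HolP univ Q) {b v : ℂ} (hb : b ∈ U)
    (hQ0 : fderiv ℝ Q v ≠ 0) (hbv : f b = Q v)
    (hn : ∀ ε : ℝ, 0 < ε → ∃ (z : ℂ) (h : ℂ → ℂ), ‖z - b‖ < ε ∧ ‖h z - v‖ < ε ∧
      ContinuousAt h z ∧ ∀ᶠ z' in 𝓝 z, f z' = Q (h z')) : Loc f Q ∈ 𝓝 b := by
  obtain ⟨i, j, hi, hd⟩ := exists_coord hQ hQ0
  have hQc : Continuous Q := continuous_iff_continuousAt.2 fun _ => hQ.continuousAt (mem_univ _)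
  have hOi : IsOpen {M : Mat N | nz (X i) M} := isOpen_nz (X i)
  have hUo : IsOpen {w | nz (X i) (Q w)} := hOi.preimage hQc
  obtain ⟨ρQ, hρQ, hρQs⟩ := Metric.isOpen_iff.1 hUo v hi
  have hQlim : CConv (atTop : Filter ℕ) univ (fun _ => Q) Q := by
    intro z _
    have h1 : ContinuousAt Q z := hQc.continuousAt
    exact h1.tendsto.comp tendsto_snd
  obtain ⟨ρ, σ, hρ, hρρ, hσ, hinv⟩ := loc_inv (cc_qv hQlim (G1 := X j) (G0 := X i)) hUo hi
    (cc_diff hQlim (fun _ => hQ) (isHomogeneous_X _ _) (isHomogeneous_X _ _) hi) hd hρQ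
  obtain ⟨-, k1, k2, I, k3, k4⟩ := hinv.exists
  set A0 : ℂ := qv (X j) (X i) (Q v) with hA0
  have hO1 : {M | nz (X i) M} ∩ {M | qv (X j) (X i) M ∈ ball A0 σ} ∈ 𝓝 (f b) := by
    rw [hbv]
    exact inter_mem (hOi.mem_nhds hi) ((continuousAt_qv hi).eventually (ball_mem_nhds _ hσ))
  obtain ⟨ρ1, hρ1, hρ1s⟩ := Metric.mem_nhds_iff.1
    (inter_mem (hU.mem_nhds hb) ((hf.continuousAt hb).preimage_mem_nhds hO1))
  have hfU : ∀ z ∈ ball b ρ1, z ∈ U := fun z hz => (hρ1s hz).1
  have hfn : ∀ z ∈ ball b ρ1, nz (X i) (f z) := fun z hz => (hρ1s hz).2.1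
  have hfq : ∀ z ∈ ball b ρ1, qv (X j) (X i) (f z) ∈ ball A0 σ := fun z hz => (hρ1s hz).2.2
  set g : ℂ → ℂ := fun w => I (qv (X j) (X i) (f w)) with hg
  have hg1 : ∀ w ∈ ball b ρ1, g w ∈ ball v ρ ∧
      qv (X j) (X i) (Q (g w)) = qv (X j) (X i) (f w) := fun w hw => k4 _ (hfq w hw)
  have hgd : DifferentiableOn ℂ g (ball b ρ1) := by
    intro w hw
    apply DifferentiableAt.differentiableWithinAt
    have d1 : DifferentiableAt ℂ (fun w => qv (X j) (X i) (f w)) w :=
      (an_qv hf (hfU w hw) (isHomogeneous_X _ _) (isHomogeneous_X _ _)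
        (hfn w hw)).differentiableAt
    have d2 : DifferentiableAt ℂ I (qv (X j) (X i) (f w)) :=
      (k3 _ (hfq w hw)).differentiableAt (isOpen_ball.mem_nhds (hfq w hw))
    exact d2.comp w d1
  have hnz2 : ∀ w ∈ ball b ρ1, nz (X i) (Q (g w)) := fun w hw =>
    hρQs (ball_subset_ball hρρ (hg1 w hw).1)
  obtain ⟨z, h, hz1, hz2, hz3, hz4⟩ := hn (min ρ1 ρ) (by positivity)
  have hzb : z ∈ ball b ρ1 := by
    rw [mem_ball, dist_eq_norm]
    exact hz1.trans_le (min_le_left _ _)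
  have hhv : h z ∈ ball v ρ := by
    rw [mem_ball, dist_eq_norm]
    exact hz2.trans_le (min_le_right _ _)
  have hev : ∀ᶠ w in 𝓝 z, f w = Q (g w) := by
    filter_upwards [hz4, hz3.eventually (isOpen_ball.mem_nhds hhv), isOpen_ball.mem_nhds hzb]
      with w hw1 hw2 hw3
    have e3 := k2 (h w) hw2 (g w) (hg1 w hw3).1
    rw [(hg1 w hw3).2, ← hw1, sub_self, norm_zero] at e3
    have e4 : h w = g w := by
      by_contra hne
      have e5 : 0 < ‖h w - g w‖ := norm_pos_iff.2 (sub_ne_zero.2 hne)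
      have e6 : 0 < ‖deriv (fun w => qv (X j) (X i) (Q w)) v‖ := norm_pos_iff.2 hd
      have e7 : 0 < ‖deriv (fun w => qv (X j) (X i) (Q w)) v‖ / 2 * ‖h w - g w‖ := by positivity
      exact absurd e3 (not_le.2 e7)
    rw [hw1, e4]
  have hcoord : ∀ l, ∀ w ∈ ball b ρ1, qv (X l) (X i) (f w) = qv (X l) (X i) (Q (g w)) := by
    intro l
    have a1 : AnalyticOnNhd ℂ (fun w => qv (X l) (X i) (f w)) (ball b ρ1) := fun w hw =>
      an_qv hf (hfU w hw) (isHomogeneous_X _ _) (isHomogeneous_X _ _) (hfn w hw)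
    have a2 : AnalyticOnNhd ℂ (fun w => qv (X l) (X i) (Q (g w))) (ball b ρ1) := by
      have d1 : DifferentiableOn ℂ (fun w => qv (X l) (X i) (Q (g w))) (ball b ρ1) := by
        intro w hw
        apply DifferentiableAt.differentiableWithinAt
        have d2 : DifferentiableAt ℂ (fun w => qv (X l) (X i) (Q w)) (g w) :=
          (an_qv hQ (mem_univ _) (isHomogeneous_X _ _) (isHomogeneous_X _ _)
            (hnz2 w hw)).differentiableAt
        exact d2.comp w ((hgd w hw).differentiableAt (isOpen_ball.mem_nhds hw))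
      exact d1.analyticOnNhd isOpen_ball
    intro w hw
    refine a1.eqOn_of_preconnected_of_eventuallyEq a2 (convex_ball b ρ1).isPreconnected hzb ?_ hw
    filter_upwards [hev] with v hv
    rw [hv]
  have hall : ∀ w ∈ ball b ρ1, f w = Q (g w) := fun w hw =>
    eq_of_qv (hf.mem_PM (hfU w hw)) (hQ.mem_PM (mem_univ _)) (hfn w hw) (hnz2 w hw) fun l =>
      hcoord l w hw
  filter_upwards [ball_mem_nhds b hρ1] with w hw
  exact ⟨g, ((hgd w hw).differentiableAt (isOpen_ball.mem_nhds hw)).continuousAt, by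
    filter_upwards [isOpen_ball.mem_nhds hw] with w' hw' using hall w' hw'⟩

/-- **Continuation.** -/
theorem loc_all (hU : IsOpen U) (hUc : IsPreconnected U) (hf : HolP U f) (hQ : HolP univ Q)
    (hQ0 : ∀ v, fderiv ℝ Q v ≠ 0) {B : ℝ} (hB : ∀ w : ℂ, ∃ l : ℂ, ‖w + l‖ ≤ B ∧
      ∀ z, Q (z + l) = Q z) (hne : (U ∩ Loc f Q).Nonempty) : ∀ z ∈ U, ∃ w, f z = Q w := by
  have hQc : Continuous Q := continuous_iff_continuousAt.2 fun _ => hQ.continuousAt (mem_univ _)
  have hopen : ∀ b ∈ U ∩ Loc f Q, Loc f Q ∈ 𝓝 b := by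
    rintro b ⟨hb, h, hh1, hh2⟩
    refine loc_cont hU hf hQ hb (hQ0 (h b)) hh2.self_of_nhds fun ε hε =>
      ⟨b, h, ?_, ?_, hh1, hh2⟩
    · rw [sub_self, norm_zero]
      exact hε
    · rw [sub_self, norm_zero]
      exact hε
  have hclosed : ∀ b ∈ U, b ∈ closure (U ∩ Loc f Q) → b ∈ Loc f Q := by
    intro b hb hcl
    obtain ⟨z, hz, hzt⟩ := mem_closure_iff_seq_limit.1 hcl
    choose hzU h hh1 hh2 using hz
    choose l hl1 hl2 using fun k => hB (h k (z k))
    obtain ⟨v, -, φ, hφ, hvt⟩ := (isCompact_closedBall (0 : ℂ) B).tendsto_subseq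
      (x := fun k => h k (z k) + l k) fun k => mem_closedBall_zero_iff.2 (hl1 k)
    have hzφ : Tendsto (fun k => z (φ k)) atTop (𝓝 b) := hzt.comp hφ.tendsto_atTop
    have hbv : f b = Q v := by
      have h1 : Tendsto (fun k => f (z (φ k))) atTop (𝓝 (f b)) :=
        (hf.continuousAt hb).tendsto.comp hzφ
      have h2 : Tendsto (fun k => Q (h (φ k) (z (φ k)) + l (φ k))) atTop (𝓝 (Q v)) :=
        (hQc.tendsto v).comp hvt
      refine tendsto_nhds_unique h1 (h2.congr fun k => ?_)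
      rw [hl2, (hh2 (φ k)).self_of_nhds]
    refine mem_of_mem_nhds (loc_cont hU hf hQ hb (hQ0 v) hbv fun ε hε => ?_)
    have e1 := (tendsto_iff_norm_sub_tendsto_zero.1 hzφ).eventually_lt_const hε
    have e2 := (tendsto_iff_norm_sub_tendsto_zero.1 hvt).eventually_lt_const hε
    obtain ⟨k, k1, k2⟩ := (e1.and e2).exists
    refine ⟨z (φ k), fun w => h (φ k) w + l (φ k), k1, k2, (hh1 (φ k)).add_const _, ?_⟩
    filter_upwards [hh2 (φ k)] with w hw
    rw [hl2, hw]
  have hsub : U ⊆ interior (Loc f Q) := by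
    have h1 : (U ∩ interior (Loc f Q)).Nonempty := by
      obtain ⟨b, hb⟩ := hne
      exact ⟨b, hb.1, mem_interior_iff_mem_nhds.2 (hopen b hb)⟩
    refine hUc.subset_of_closure_inter_subset isOpen_interior h1 ?_
    rintro b ⟨hb1, hb2⟩
    refine mem_interior_iff_mem_nhds.2 (hopen b ⟨hb2, hclosed b hb2 ?_⟩)
    rw [Metric.mem_closure_iff] at hb1 ⊢
    intro ε hε
    obtain ⟨ρ, hρ, hρU⟩ := Metric.isOpen_iff.1 hU b hb2
    obtain ⟨c, hc1, hc2⟩ := hb1 (min ε ρ) (by positivity)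
    refine ⟨c, ⟨hρU ?_, interior_subset hc1⟩, hc2.trans_le (min_le_left _ _)⟩
    rw [mem_ball, dist_comm]
    exact hc2.trans_le (min_le_right _ _)
  intro z hz
  obtain ⟨h, -, hh⟩ := interior_subset (hsub hz)
  exact ⟨h z, hh.self_of_nhds⟩

/-- a curve with values in the image of an entire curve is locally a reparametrisation of it -/
theorem loc_nonempty (hU : IsOpen U) (hf : HolP U f) (hQ : HolP univ Q) {r c1 : ℝ} (hr : 0 < r)
    (hc1 : 0 < c1) (hi : ∀ z t : ℂ, ‖t‖ ≤ 2 * r → c1 * ‖t‖ ≤ ‖Q (z + t) - Q z‖) (hne : U.Nonempty)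
    (hfr : ∀ z ∈ U, ∃ w, f z = Q w) : (U ∩ Loc f Q).Nonempty := by
  classical
  obtain ⟨b, hb⟩ := hne
  have hQc : Continuous Q := continuous_iff_continuousAt.2 fun _ => hQ.continuousAt (mem_univ _)
  obtain ⟨ρ, hρ, hρU⟩ := Metric.nhds_basis_closedBall.mem_iff.1 (hU.mem_nhds hb)
  set q : ℕ → ℂ := TopologicalSpace.denseSeq ℂ with hq
  set S : ℕ → Set ℂ := fun n => closedBall b ρ ∩ f ⁻¹' (Q '' closedBall (q n) r) with hS
  have hSc : ∀ n, IsClosed (S n) := fun n =>
    ContinuousOn.preimage_isClosed_of_isClosed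
      (fun z hz => (hf.continuousAt (hρU hz)).continuousWithinAt) isClosed_closedBall
      (((isCompact_closedBall (q n) r).image hQc).isClosed)
  set F : Option ℕ → Set ℂ := fun o => match o with
    | none => (ball b ρ)ᶜ
    | some n => S n with hF
  have hFc : ∀ o, IsClosed (F o) := by
    intro o
    cases o with
    | none => exact isOpen_ball.isClosed_compl
    | some n => exact hSc n
  have hFU : ⋃ o, F o = univ := by
    rw [eq_univ_iff_forall]
    intro z
    rw [mem_iUnion]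
    by_cases hz : z ∈ ball b ρ
    · obtain ⟨w, hw⟩ := hfr z (hρU (ball_subset_closedBall hz))
      obtain ⟨n, hyw⟩ := (TopologicalSpace.denseRange_denseSeq ℂ).exists_dist_lt w hr
      exact ⟨some n, ball_subset_closedBall hz, w, mem_closedBall.2 hyw.le, hw.symm⟩
    · exact ⟨none, hz⟩
  obtain ⟨x, hx1, hx2⟩ := (dense_iUnion_interior_of_closed hFc hFU).inter_open_nonempty _
    isOpen_ball ⟨b, mem_ball_self hρ⟩
  obtain ⟨o, ho⟩ := mem_iUnion.1 hx2
  cases o with
  | none => exact absurd hx1 (interior_subset ho)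
  | some n =>
    have ho' : S n ∈ 𝓝 x := mem_interior_iff_mem_nhds.1 ho
    have hex : ∀ z : ℂ, ∃ w : ℂ, z ∈ S n → w ∈ closedBall (q n) r ∧ Q w = f z := by
      intro z
      by_cases hz : z ∈ S n
      · obtain ⟨w, hw1, hw2⟩ := hz.2
        exact ⟨w, fun _ => ⟨hw1, hw2⟩⟩
      · exact ⟨0, fun h => absurd h hz⟩
    choose h hh using hex
    refine ⟨x, hρU (ball_subset_closedBall hx1), h, ?_, ?_⟩
    · rw [ContinuousAt, tendsto_iff_norm_sub_tendsto_zero]
      have h1 : Tendsto (fun z => ‖f z - f x‖ / c1) (𝓝 x) (𝓝 0) := by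
        have h2 := ((hf.continuousAt (hρU (ball_subset_closedBall hx1))).tendsto.sub_const
          (f x)).norm.div_const c1
        rwa [sub_self, norm_zero, zero_div] at h2
      refine squeeze_zero' (Eventually.of_forall fun _ => norm_nonneg _) ?_ h1
      filter_upwards [ho'] with z hz
      obtain ⟨a1, a2⟩ := hh z hz
      obtain ⟨b1, b2⟩ := hh x (mem_of_mem_nhds ho')
      rw [mem_closedBall, dist_eq_norm] at a1 b1
      have h3 := hi (h x) (h z - h x) (by
        have e1 : h z - h x = (h z - q n) - (h x - q n) := by ring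
        rw [e1]
        exact (norm_sub_le _ _).trans (by linarith))
      rw [add_sub_cancel, a2, b2] at h3
      rw [le_div_iff₀ hc1]
      linarith
    · filter_upwards [ho'] with z hz
      exact (hh z hz).2.symm

end Pool.Agent.N155.GD
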