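import Pool.Agent.N155.G.Defs
import Pool.Agent.N155.G.Hp

/-! From projective space to projection matrices, for curves on open sets. -/

set_option autoImplicit false

open Filter Topology Metric Set MvPolynomial LinearAlgebra.Projectivization

namespace Pool.Agent.N155.GD

open Pool.Agent.Y190.OP Pool.Agent.W602.GT Pool.Agent.TH143.GT Pool.Agent.N155
  Pool.Agent.N155.BB

variable {n : ℕ} {ι ι' : Type} {F : ι → MvPolynomial (Fin (n + 1)) ℂ}
  {G : ι' → MvPolynomial (Fin (n + 1)) ℂ} {d : ℕ}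
  {κ : Type} {η : κ → (Fin (n + 1) → ℂ) → (Fin (n + 1) → ℂ) → (Fin (n + 1) → ℂ) → ℂ}

/-- the two metrics -/
theorem wedge_fderivOn (n : ℕ) : ∃ A : ℝ, 0 < A ∧ ∀ f : ℂ → ℙ ℂ (Fin (n + 1) → ℂ),
    ∀ (V : Set ℂ) (g : ℂ → Fin (n + 1) → ℂ), IsOpen V → DifferentiableOn ℂ g V →
    (∀ w ∈ V, ∃ h : g w ≠ 0, f w = Projectivization.mk ℂ (g w) h) → ∀ z ∈ V,
    ‖fderiv ℝ (fun z => Phi (f z).rep) z‖ * ∑ k, ‖g z k‖ ^ 2 ≤ A * wedge (g z) (deriv g z) ∧
    wedge (g z) (deriv g z) ≤ A * ‖fderiv ℝ (fun z => Phi (f z).rep) z‖ * ∑ k, ‖g z k‖ ^ 2 := by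
  obtain ⟨A, hA, hfd⟩ := fderiv_le n
  refine ⟨max (2 * A) (4 * ((n : ℝ) + 1) ^ 3), by positivity, fun f V g hV hg hfg z hz => ?_⟩
  have hS := BB.sum_pos (hfg z hz).1
  have hdj := fun j => deriv_apply hV hg hz j
  have hhol : HolP V (fun z => Phi (f z).rep) :=
    holP_of_mapOn fun w hw => ⟨V, g, hV, hw, hg, hfg⟩
  constructor
  · have h1 := hfd f V g hV hg hfg z hz (2 * wedge (g z) (deriv g z) / ∑ k, ‖g z k‖ ^ 2)
      (div_nonneg (mul_nonneg zero_le_two (wedge_nonneg _ _)) hS.le) (fun i j => by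
        rw [div_mul_cancel₀ _ hS.ne', ← hdj i, ← hdj j]
        exact le_wedge _ _ i j)
    rw [← mul_div_assoc, le_div_iff₀ hS] at h1
    refine h1.trans ?_
    rw [← mul_assoc]
    exact mul_le_mul_of_nonneg_right (by
      rw [mul_comm]
      exact le_max_left _ _) (wedge_nonneg _ _)
  · have h1 := derBound_of_fderiv (f := f) (z := z) (C := ‖fderiv ℝ (fun z => Phi (f z).rep) z‖)
      le_rfl (hhol.differentiableAt hz) V g hV hz hg hfg
    have h2 : wedge (g z) (deriv g z) ≤ ((n : ℝ) + 1) *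
        (4 * ‖fderiv ℝ (fun z => Phi (f z).rep) z‖ * ((n : ℝ) + 1) ^ 2 * ∑ k, ‖g z k‖ ^ 2) := by
      apply wedge_le (by positivity)
      intro i j
      rw [hdj i, hdj j]
      exact h1 i j
    refine h2.trans ?_
    have h3 : ((n : ℝ) + 1) * (4 * ‖fderiv ℝ (fun z => Phi (f z).rep) z‖ * ((n : ℝ) + 1) ^ 2 *
        ∑ k, ‖g z k‖ ^ 2) = (4 * ((n : ℝ) + 1) ^ 3) *
        (‖fderiv ℝ (fun z => Phi (f z).rep) z‖ * ∑ k, ‖g z k‖ ^ 2) := by ring
    rw [h3, mul_assoc (max _ _)]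
    exact mul_le_mul_of_nonneg_right (le_max_right _ _) (by positivity)

/-- the two distances -/
theorem chord_le (p q : ℙ ℂ (Fin (n + 1) → ℂ)) :
    chord p q ≤ 2 * ((n : ℝ) + 1) ^ 2 * ‖Phi p.rep - Phi q.rep‖ := by
  set u := p.rep with hu
  set v := q.rep with hv
  have hu0 : u ≠ 0 := p.rep_nonzero
  have hv0 : v ≠ 0 := q.rep_nonzero
  set x : Fin (n + 1) → ℂ := fun i => ∑ j, (Phi v i j - Phi u i j) * v j with hx
  set t : ℂ := (∑ j, (starRingEnd ℂ) (u j) * v j) / nsq u with ht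
  have hMv : ∀ i, ∑ j, Phi v i j * v j = v i := by
    intro i
    have h1 : ∀ j, Phi v i j * v j = v i / nsq v * (v j * (starRingEnd ℂ) (v j)) := fun j => by
      unfold Phi
      ring
    rw [Finset.sum_congr rfl fun j _ => h1 j, ← Finset.mul_sum]
    change v i / nsq v * nsq v = v i
    rw [div_mul_cancel₀ _ (nsq_ne hv0)]
  have hMu : ∀ i, ∑ j, Phi u i j * v j = t * u i := by
    intro i
    have h1 : ∀ j, Phi u i j * v j = u i / nsq u * ((starRingEnd ℂ) (u j) * v j) := fun j => by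
      unfold Phi
      ring
    rw [Finset.sum_congr rfl fun j _ => h1 j, ← Finset.mul_sum, ht]
    ring
  have hxv : ∀ i, x i = v i - t * u i := by
    intro i
    simp only [hx, sub_mul, Finset.sum_sub_distrib]
    rw [hMv, hMu]
  set D : ℝ := ‖Phi u - Phi v‖ with hD
  have hxb : ∀ i, ‖x i‖ ≤ ((n : ℝ) + 1) * (D * ‖v‖) := by
    intro i
    refine (norm_sum_le _ _).trans ?_
    refine (Finset.sum_le_card_nsmul _ _ (D * ‖v‖) fun j _ => ?_).trans ?_
    · rw [norm_mul]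
      apply mul_le_mul _ (norm_le_pi_norm v j) (norm_nonneg _) (norm_nonneg _)
      rw [norm_sub_rev]
      exact (norm_le_pi_norm ((Phi u - Phi v) i) j).trans (norm_le_pi_norm (Phi u - Phi v) i)
    · simp
  have hw : wedge u v ≤ ((n : ℝ) + 1) * (2 * (‖u‖ * (((n : ℝ) + 1) * (D * ‖v‖)))) := by
    apply wedge_le (by positivity)
    intro i j
    have h1 : u i * v j - u j * v i = u i * x j - u j * x i := by
      rw [hxv, hxv]
      ring
    rw [h1]
    refine (norm_sub_le _ _).trans ?_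
    rw [norm_mul, norm_mul, two_mul]
    exact add_le_add (mul_le_mul (norm_le_pi_norm u i) (hxb j) (norm_nonneg _) (norm_nonneg _))
      (mul_le_mul (norm_le_pi_norm u j) (hxb i) (norm_nonneg _) (norm_nonneg _))
  have hsup : ∀ w : Fin (n + 1) → ℂ, ‖w‖ ≤ √(∑ k, ‖w k‖ ^ 2) := by
    intro w
    rw [pi_norm_le_iff_of_nonneg (Real.sqrt_nonneg _)]
    intro k
    apply Real.le_sqrt_of_sq_le
    exact Finset.single_le_sum (f := fun l => ‖w l‖ ^ 2) (fun _ _ => by positivity)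
      (Finset.mem_univ k)
  unfold chord
  rw [← hu, ← hv]
  have h1 := norm_pos_iff.2 hu0
  have h2 := norm_pos_iff.2 hv0
  have h3 := hsup u
  have h4 := hsup v
  have h5 : 0 < √(∑ k, ‖u k‖ ^ 2) * √(∑ k, ‖v k‖ ^ 2) := mul_pos (h1.trans_le h3) (h2.trans_le h4)
  rw [div_le_iff₀ h5]
  refine hw.trans ?_
  have h6 : ‖u‖ * ‖v‖ ≤ √(∑ k, ‖u k‖ ^ 2) * √(∑ k, ‖v k‖ ^ 2) :=
    mul_le_mul h3 h4 h2.le (Real.sqrt_nonneg _)
  have h7 : 0 ≤ 2 * ((n : ℝ) + 1) ^ 2 * D := by positivity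
  calc ((n : ℝ) + 1) * (2 * (‖u‖ * (((n : ℝ) + 1) * (D * ‖v‖)))) =
      2 * ((n : ℝ) + 1) ^ 2 * D * (‖u‖ * ‖v‖) := by ring
    _ ≤ _ := mul_le_mul_of_nonneg_left h6 h7

end Pool.Agent.N155.GD
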