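import Pool.Agent.N155.G.Mat

/-! Curves of bounded distortion on domains containing a half-plane. -/

set_option autoImplicit false

open Filter Topology Metric Set MvPolynomial LinearAlgebra.Projectivization

namespace Pool.Agent.N155.GD

open Pool.Agent.Y190.OP Pool.Agent.W602.GT Pool.Agent.TH143.GT Pool.Agent.N155
  Pool.Agent.N155.BB

/-- translations to a bounded set by periods -/
theorem lat_bound {X : Type*} {g : ℂ → X} {p q : ℂ} (hind : LinearIndependent ℝ ![p, q])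
    (hp : ∀ z, g (z + p) = g z) (hq : ∀ z, g (z + q) = g z) :
    ∃ B : ℝ, ∀ w : ℂ, ∃ l : ℂ, ‖w + l‖ ≤ B ∧ ∀ z, g (z + l) = g z := by
  obtain ⟨L, hL⟩ := pair_periods hind hp hq
  refine ⟨‖L.ω₁‖ + ‖L.ω₂‖, fun w => ?_⟩
  have hw := L.basis.sum_repr w
  rw [Fin.sum_univ_two, L.basis_zero, L.basis_one] at hw
  set x : ℝ := L.basis.repr w 0 with hx
  set y : ℝ := L.basis.repr w 1 with hy
  refine ⟨-((⌊x⌋ : ℂ) * L.ω₁ + (⌊y⌋ : ℂ) * L.ω₂), ?_, hL _ ?_⟩
  · have e1 : w + -((⌊x⌋ : ℂ) * L.ω₁ + (⌊y⌋ : ℂ) * L.ω₂) =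
        ((Int.fract x : ℝ) : ℂ) * L.ω₁ + ((Int.fract y : ℝ) : ℂ) * L.ω₂ := by
      rw [← hw, Complex.real_smul, Complex.real_smul, Int.fract, Int.fract]
      push_cast
      ring
    rw [e1]
    refine (norm_add_le _ _).trans ?_
    rw [norm_mul, norm_mul, Complex.norm_real, Complex.norm_real,
      Real.norm_of_nonneg (Int.fract_nonneg _), Real.norm_of_nonneg (Int.fract_nonneg _)]
    exact add_le_add (mul_le_of_le_one_left (norm_nonneg _) (Int.fract_lt_one _).le)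
      (mul_le_of_le_one_left (norm_nonneg _) (Int.fract_lt_one _).le)
  · rw [PeriodPair.mem_lattice]
    exact ⟨-⌊x⌋, -⌊y⌋, by push_cast; ring⟩

theorem exists_frequently {α : Type*} {S : Finset α} {p : ℕ → α → Prop}
    (h : ∀ᶠ m in atTop, ∃ g ∈ S, p m g) : ∃ g ∈ S, ∃ᶠ m in atTop, p m g := by
  by_contra hcon
  push Not at hcon
  have h1 : ∀ᶠ m in (atTop : Filter ℕ), ∀ g ∈ S, ¬ p m g := by
    rw [Finset.eventually_all]
    intro g hg
    exact hcon g hg
  obtain ⟨m, ⟨g, hg, hm⟩, hm2⟩ := (h.and h1).exists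
  exact hm2 g hg hm

variable {n : ℕ} {ι ι' : Type} {F : ι → MvPolynomial (Fin (n + 1)) ℂ}
  {G : ι' → MvPolynomial (Fin (n + 1)) ℂ} {d : ℕ}
  {κ : Type} {η : κ → (Fin (n + 1) → ℂ) → (Fin (n + 1) → ℂ) → (Fin (n + 1) → ℂ) → ℂ}

/-- **Half-planes.** -/
theorem half_mat (hF : ∀ i, IsForm (F i)) {c0 K R κ : ℝ} {S : Finset (ℂ → Mat (n + 1))}
    (hc0 : 0 < c0) (hR : 0 < R) (hκ : 0 < κ)
    (hS : ∀ g ∈ S, BCw (TF F) c0 g ∧ ∃ p q : ℂ, LinearIndependent ℝ ![p, q] ∧
      (∀ z, g (z + p) = g z) ∧ ∀ z, g (z + q) = g z)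
    (hD : ∀ (a : ℂ) (r c : ℝ) (f : ℂ → ℙ ℂ (Fin (n + 1) → ℂ)), 0 < c → R ≤ c * r →
        HolBetween F (ball a r) (fun _ => c) (fun _ => K * c) f → ∃ g ∈ S, ∀ z : ℂ,
        c * ‖z - a‖ ≤ c * r - R → ∃ w : ℂ,
          ‖Phi (f z).rep - g w‖ ≤ Real.exp (-κ * (c ^ 2 * (r ^ 2 - ‖z - a‖ ^ 2))))
    {U : Set ℂ} (hU : IsOpen U) (hUc : IsPreconnected U) (hUh : HasHalfPlane U) {c : ℝ}
    (hc : 0 < c) {f : ℂ → ℙ ℂ (Fin (n + 1) → ℂ)}
    (hf : HolBetween F U (fun _ => c) (fun _ => K * c) f) :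
    ∃ g ∈ S, ∀ z ∈ U, ∃ w, Phi (f z).rep = g w := by
  classical
  obtain ⟨u, s, hu, hs⟩ := hUh
  have hun : 0 < ‖u‖ := norm_pos_iff.2 hu
  have hbs : ∀ m : ℕ, ball (((s : ℂ) + m) / u) (m / ‖u‖) ⊆ U := by
    intro m z hz
    apply hs
    rw [mem_ball, dist_eq_norm, lt_div_iff₀ hun, ← norm_mul] at hz
    have e1 : (z - ((s : ℂ) + m) / u) * u = u * z - (s + m) := by
      field_simp
    rw [e1] at hz
    have h1 := (abs_le.1 ((Complex.abs_re_le_norm (u * z - (s + m))).trans hz.le)).1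
    have h2 := Complex.abs_re_le_norm (u * z - (s + m))
    have h3 : |(u * z - (s + m)).re| < m := h2.trans_lt hz
    have h4 := (abs_lt.1 h3).1
    rw [Complex.sub_re, Complex.add_re, Complex.ofReal_re, Complex.natCast_re] at h4
    linarith
  have hev : ∀ᶠ m : ℕ in atTop, ∃ g ∈ S, ∀ z : ℂ,
        c * ‖z - ((s : ℂ) + m) / u‖ ≤ c * (m / ‖u‖) - R → ∃ w : ℂ,
          ‖Phi (f z).rep - g w‖ ≤
            Real.exp (-κ * (c ^ 2 * ((m / ‖u‖) ^ 2 - ‖z - ((s : ℂ) + m) / u‖ ^ 2))) := by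
    filter_upwards [eventually_ge_atTop ⌈R * ‖u‖ / c⌉₊] with m hm
    refine hD _ _ c f hc ?_ (hf.sub (hbs m))
    have h1 : R * ‖u‖ / c ≤ m := (Nat.le_ceil _).trans (by exact_mod_cast hm)
    rw [div_le_iff₀ hc] at h1
    rw [← mul_div_assoc, le_div_iff₀ hun]
    linarith
  obtain ⟨g, hg, hfr⟩ := exists_frequently hev
  obtain ⟨hBC, p, q, hind, hp, hq⟩ := hS g hg
  obtain ⟨B, hB⟩ := lat_bound hind hp hq
  have hcls := BCw.cls (isCompact_TF hF) (TF_PM (F := F)) hc0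
  have hgc : Continuous g := hcls.cont hBC
  have hrange : range g = g '' closedBall 0 B := by
    apply Subset.antisymm
    · rintro _ ⟨w, rfl⟩
      obtain ⟨l, hl1, hl2⟩ := hB w
      exact ⟨w + l, mem_closedBall_zero_iff.2 hl1, hl2 w⟩
    · rintro _ ⟨w, -, rfl⟩
      exact ⟨w, rfl⟩
  have hclosed : IsClosed (range g) := by
    rw [hrange]
    exact ((isCompact_closedBall 0 B).image hgc).isClosed
  have hexact : ∀ z : ℂ, s + R * ‖u‖ / c < (u * z).re → ∃ w, Phi (f z).rep = g w := by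
    intro z hz
    set R' : ℝ := R * ‖u‖ / c with hR'
    have hR'0 : 0 < R' := by positivity
    set ζ : ℂ := u * z - s with hζ
    have hζre : ζ.re = (u * z).re - s := by
      rw [hζ, Complex.sub_re, Complex.ofReal_re]
    have hx : R' < ζ.re := by rw [hζre]; linarith
    have hzn : ∀ m : ℕ, ‖z - ((s : ℂ) + m) / u‖ = ‖ζ - m‖ / ‖u‖ := by
      intro m
      rw [eq_div_iff hun.ne', ← norm_mul]
      congr 1
      rw [hζ]
      field_simp
      ring
    have hsq : ∀ m : ℕ, ‖ζ - m‖ ^ 2 = ‖ζ‖ ^ 2 - 2 * m * ζ.re + m ^ 2 := by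
      intro m
      rw [← Complex.normSq_eq_norm_sq, ← Complex.normSq_eq_norm_sq, Complex.normSq_apply,
        Complex.normSq_apply, Complex.sub_re, Complex.sub_im, Complex.natCast_re,
        Complex.natCast_im]
      ring
    have hmem : Phi (f z).rep ∈ closure (range g) := by
      rw [Metric.mem_closure_iff]
      intro ε hε
      have e1 : ∀ᶠ m : ℕ in atTop, c * ‖z - ((s : ℂ) + m) / u‖ ≤ c * (m / ‖u‖) - R := by
        have h1 : Tendsto (fun m : ℕ => 2 * (ζ.re - R') * (m : ℝ)) atTop atTop :=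
          tendsto_natCast_atTop_atTop.const_mul_atTop (by linarith)
        filter_upwards [h1.eventually_ge_atTop (‖ζ‖ ^ 2 - R' ^ 2),
          tendsto_natCast_atTop_atTop.eventually_ge_atTop R'] with m hm1 hm2
        have h2 : ‖ζ - m‖ ≤ m - R' := by
          rw [← pow_le_pow_iff_left₀ (norm_nonneg _) (by linarith) two_ne_zero, hsq]
          nlinarith
        rw [hzn]
        have h3 : c * (‖ζ - m‖ / ‖u‖) = c * ‖ζ - m‖ / ‖u‖ := by ring
        have h4 : c * (m / ‖u‖) - R = c * (m - R') / ‖u‖ := by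
          rw [hR']
          field_simp
        rw [h3, h4]
        exact div_le_div_of_nonneg_right (mul_le_mul_of_nonneg_left h2 hc.le) hun.le
      have e2 : ∀ᶠ m : ℕ in atTop,
          Real.exp (-κ * (c ^ 2 * ((m / ‖u‖) ^ 2 - ‖z - ((s : ℂ) + m) / u‖ ^ 2))) < ε := by
        have h1 : Tendsto (fun m : ℕ => κ * c ^ 2 / ‖u‖ ^ 2 * (2 * ζ.re) * (m : ℝ)) atTop atTop :=
          tendsto_natCast_atTop_atTop.const_mul_atTop (by
            have : 0 < ζ.re := by linarith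
            positivity)
        have h2 := tendsto_neg_atTop_atBot.comp
          (tendsto_atTop_add_const_right _ (-(κ * c ^ 2 / ‖u‖ ^ 2 * ‖ζ‖ ^ 2)) h1)
        have h3 := Real.tendsto_exp_atBot.comp h2
        have h4 := h3.eventually_lt_const hε
        filter_upwards [h4] with m hm
        refine lt_of_eq_of_lt ?_ hm
        simp only [Function.comp_apply]
        congr 1
        rw [hzn, div_pow, div_pow, hsq]
        field_simp
        ring
      obtain ⟨m, m1, m2, m3⟩ := (hfr.and_eventually (e1.and e2)).exists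
      obtain ⟨w, hw⟩ := m1 z m2
      exact ⟨g w, ⟨w, rfl⟩, by
        rw [dist_eq_norm]
        exact hw.trans_lt m3⟩
    rw [hclosed.closure_eq] at hmem
    obtain ⟨w, hw⟩ := hmem
    exact ⟨w, hw.symm⟩
  set V : Set ℂ := {z | s + R * ‖u‖ / c < (u * z).re} with hV
  have hVo : IsOpen V := isOpen_lt continuous_const (by fun_prop)
  have hVU : V ⊆ U := fun z hz => hs z (by
    have h1 : 0 < R * ‖u‖ / c := by positivity
    have h2 : s + R * ‖u‖ / c < (u * z).re := hz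
    linarith)
  have hVne : V.Nonempty := by
    refine ⟨((s + R * ‖u‖ / c + 1 : ℝ) : ℂ) / u, ?_⟩
    change s + R * ‖u‖ / c < (u * (((s + R * ‖u‖ / c + 1 : ℝ) : ℂ) / u)).re
    rw [mul_div_cancel₀ _ hu, Complex.ofReal_re]
    exact lt_add_one _
  have hholU : HolP U (fun z => Phi (f z).rep) := holP_of_mapOn hf.hol
  obtain ⟨r, c1, hr, hc1, hi⟩ := hcls.inj
  have hne := loc_nonempty hVo (hholU.mono hVU) hBC.hol hr hc1 (hi g hBC) hVne hexact
  exact ⟨g, hg, loc_all hU hUc hholU hBC.hol (hcls.im hBC) hB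
    (hne.mono (inter_subset_inter_left _ hVU))⟩

end Pool.Agent.N155.GD
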