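import Pool.Agent.N155.G.FinG

/-! Curves of bounded distortion on discs. -/

set_option autoImplicit false

open Filter Topology Metric Set MvPolynomial LinearAlgebra.Projectivization

namespace Pool.Agent.N155.GD

open Pool.Agent.Y190.OP Pool.Agent.W602.GT Pool.Agent.TH143.GT Pool.Agent.N155
  Pool.Agent.N155.BB

variable {n : ℕ} {ι ι' : Type} {F : ι → MvPolynomial (Fin (n + 1)) ℂ}
  {G : ι' → MvPolynomial (Fin (n + 1)) ℂ} {d : ℕ}
  {κ : Type} {η : κ → (Fin (n + 1) → ℂ) → (Fin (n + 1) → ℂ) → (Fin (n + 1) → ℂ) → ℂ}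

theorem HolBetween.mono {U : Set ℂ} {lo hi hi' : ℂ → ℝ} {f : ℂ → ℙ ℂ (Fin (n + 1) → ℂ)}
    (h : HolBetween F U lo hi f) (hh : ∀ z ∈ U, hi z ≤ hi' z) : HolBetween F U lo hi' f := by
  intro z hz
  obtain ⟨h1, V, g, hV, hzV, hg, hfg, h2, h3⟩ := h z hz
  exact ⟨h1, V, g, hV, hzV, hg, hfg, h2, h3.trans (mul_le_mul_of_nonneg_right (hh z hz)
    (Finset.sum_nonneg fun _ _ => by positivity))⟩

theorem HolBetween.sub {U U' : Set ℂ} {lo hi : ℂ → ℝ} {f : ℂ → ℙ ℂ (Fin (n + 1) → ℂ)}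
    (h : HolBetween F U lo hi f) (hU : U' ⊆ U) : HolBetween F U' lo hi f := fun z hz =>
  h z (hU hz)

theorem HolBetween.hol {U : Set ℂ} {lo hi : ℂ → ℝ} {f : ℂ → ℙ ℂ (Fin (n + 1) → ℂ)}
    (h : HolBetween F U lo hi f) : HolMapOn U f := by
  intro z hz
  obtain ⟨-, V, g, hV, hzV, hg, hfg, -⟩ := h z hz
  exact ⟨V, g, hV, hzV, hg, hfg⟩

/-- **Discs and entire curves.** -/
theorem disc_mat (hX : ProjManifold F d) (hG : ∀ i, IsForm (G i))
    (hη : PositiveTwoForms (Cone F) (Cone G) d η) (hZ : NoBC F G) {K : ℝ} (hK : 0 < K) :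
    ∃ (c0 : ℝ) (S : Finset (ℂ → Mat (n + 1))) (R κ : ℝ), 0 < c0 ∧ 0 < R ∧ 0 < κ ∧
      (∀ g ∈ S, BCw (TF F) c0 g ∧ ∃ p q : ℂ, LinearIndependent ℝ ![p, q] ∧
        (∀ z, g (z + p) = g z) ∧ ∀ z, g (z + q) = g z) ∧
      (∀ (a : ℂ) (r c : ℝ) (f : ℂ → ℙ ℂ (Fin (n + 1) → ℂ)), 0 < c → R ≤ c * r →
        HolBetween F (ball a r) (fun _ => c) (fun _ => K * c) f → ∃ g ∈ S, ∀ z : ℂ,
        c * ‖z - a‖ ≤ c * r - R → ∃ w : ℂ,
          ‖Phi (f z).rep - g w‖ ≤ Real.exp (-κ * (c ^ 2 * (r ^ 2 - ‖z - a‖ ^ 2)))) ∧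
      ∀ (c : ℝ) (f : ℂ → ℙ ℂ (Fin (n + 1) → ℂ)), 0 < c →
        HolBetween F univ (fun _ => c) (fun _ => K * c) f → ∃ g ∈ S, ∃ a b : ℂ, a ≠ 0 ∧
        ∀ z, Phi (f z).rep = g (a * z + b) := by
  classical
  obtain ⟨A, hA, hw⟩ := wedge_fderivOn n
  have hgw := gw_of hX hG hη
  set c0 : ℝ := 2 / (A * A * K) with hc0
  have hc0p : 0 < c0 := by positivity
  have hcls := BCw.cls (isCompact_TF hX.form) (TF_PM (F := F)) hc0p
  have hdcl := dcl_of (isCompact_TF hX.form) (TF_PM (F := F)) hc0p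
  have hout : ∀ φ, BCw (TF F) c0 φ → ∃ z, φ z ∉ TF G := fun φ hφ => hZ.out hX.form hG hc0p hφ
  obtain ⟨S, hS1, hS2⟩ := finite_class hgw hout hcls
  obtain ⟨R0, κ0, hR0, hκ0, hdisc⟩ := disc_close hgw hout hdcl
  have hFD : ∀ (U : Set ℂ) (f : ℂ → ℙ ℂ (Fin (n + 1) → ℂ)) (c : ℝ),
      HolBetween F U (fun _ => c) (fun _ => K * c) f → ∀ z ∈ U,
      c / A ≤ ‖fderiv ℝ (fun z => Phi (f z).rep) z‖ ∧
        ‖fderiv ℝ (fun z => Phi (f z).rep) z‖ ≤ A * (K * c) := by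
    intro U f c hf z hz
    obtain ⟨-, V, g, hV, hzV, hg, hfg, h3, h4⟩ := hf z hz
    obtain ⟨h1, h2⟩ := hw f V g hV hg hfg z hzV
    have hS := BB.sum_pos (hfg z hzV).1
    constructor
    · rw [div_le_iff₀ hA]
      have h5 := h3.trans h2
      have h6 := le_of_mul_le_mul_right h5 hS
      linarith
    · have h5 := h1.trans (mul_le_mul_of_nonneg_left h4 hA.le)
      rw [← mul_assoc] at h5
      exact le_of_mul_le_mul_right h5 hS
  -- the rescaled curves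
  have hresc : ∀ (U : Set ℂ) (f : ℂ → ℙ ℂ (Fin (n + 1) → ℂ)) (c : ℝ), 0 < c →
      HolBetween F U (fun _ => c) (fun _ => K * c) f → ∀ a : ℂ,
      HolP (aff a (2 / (A * (K * c))) ⁻¹' U)
        (fun z => Phi (f (aff a (2 / (A * (K * c))) z)).rep) ∧
      ∀ z, aff a (2 / (A * (K * c))) z ∈ U →
        Phi (f (aff a (2 / (A * (K * c))) z)).rep ∈ TF F ∧
        ‖fderiv ℝ (fun z => Phi (f (aff a (2 / (A * (K * c))) z)).rep) z‖ ≤ 2 ∧
        c0 ≤ ‖fderiv ℝ (fun z => Phi (f (aff a (2 / (A * (K * c))) z)).rep) z‖ := by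
    intro U f c hc hf a
    set ρ : ℝ := 2 / (A * (K * c)) with hρ
    have hρ0 : 0 < ρ := by positivity
    have hhol := holP_of_mapOn hf.hol
    refine ⟨hhol.aff a ρ, fun z hz => ?_⟩
    have hnorm : ‖fderiv ℝ (fun z => Phi (f (aff a ρ z)).rep) z‖ =
        ρ * ‖fderiv ℝ (fun z => Phi (f z).rep) (aff a ρ z)‖ :=
      norm_fderiv_aff (Ψ := fun z => Phi (f z).rep) hρ0.le (hhol.differentiableAt hz)
    obtain ⟨h1, h2⟩ := hFD U f c hf _ hz
    refine ⟨mem_TF (hf _ hz).1, ?_, ?_⟩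
    · rw [hnorm, hρ, div_mul_eq_mul_div, div_le_iff₀ (by positivity)]
      linarith
    · rw [hnorm, hρ, hc0]
      have h2 : 2 / (A * A * K) = 2 / (A * (K * c)) * (c / A) := by
        field_simp
      rw [h2]
      exact mul_le_mul_of_nonneg_left h1 (by positivity)
  refine ⟨c0, S, R0 * (2 / (A * K)), κ0 * (A * K / 2) ^ 2, hc0p, by positivity, by positivity,
    fun g hg => ⟨hS1 g hg, two_periods hgw hout hcls (hS1 g hg)⟩, ?_, ?_⟩
  · intro a r c f hc hR hf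
    obtain ⟨h1, h2⟩ := hresc _ f c hc hf a
    set ρ : ℝ := 2 / (A * (K * c)) with hρ
    have hρ0 : 0 < ρ := by positivity
    have hρc : (ρ : ℂ) ≠ 0 := by exact_mod_cast hρ0.ne'
    have hmaps : ∀ z ∈ ball (0 : ℂ) (r / ρ), aff a ρ z ∈ ball a r := by
      intro z hz
      rw [mem_ball_zero_iff, lt_div_iff₀ hρ0] at hz
      unfold aff
      rw [mem_ball, dist_eq_norm, add_sub_cancel_left, norm_mul, Complex.norm_real,
        Real.norm_of_nonneg hρ0.le, mul_comm]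
      exact hz
    have hD : Dw (TF F) c0 (r / ρ) (fun z => Phi (f (aff a ρ z)).rep) :=
      ⟨h1.mono hmaps, fun z hz => (h2 z (hmaps z hz)).1, fun z hz => (h2 z (hmaps z hz)).2.1,
        fun z hz => (h2 z (hmaps z hz)).2.2⟩
    have hrρ : r / ρ = c * r * (A * K / 2) := by
      rw [hρ]
      field_simp
    obtain ⟨Q, hQ, hQ2⟩ := hdisc (r / ρ) _ (by
      rw [hrρ]
      have h3 : R0 = R0 * (2 / (A * K)) * (A * K / 2) := by field_simp
      rw [h3]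
      exact mul_le_mul_of_nonneg_right hR (by positivity)) hD
    obtain ⟨g, hg, α, β, hαβ⟩ := hS2 Q hQ
    refine ⟨g, hg, fun z hz => ?_⟩
    have hzz : aff a ρ ((z - a) / ρ) = z := by
      unfold aff
      field_simp
      ring
    have hnz : ‖(z - a) / (ρ : ℂ)‖ = c * ‖z - a‖ * (A * K / 2) := by
      rw [norm_div, Complex.norm_real, Real.norm_of_nonneg hρ0.le, hρ]
      field_simp
    obtain ⟨w, hw2⟩ := hQ2 ((z - a) / ρ) (by
      rw [hnz, hrρ]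
      have h3 : R0 = R0 * (2 / (A * K)) * (A * K / 2) := by field_simp
      have h4 := mul_le_mul_of_nonneg_right hz (show 0 ≤ A * K / 2 by positivity)
      rw [sub_mul, ← h3] at h4
      exact h4)
    refine ⟨α * w + β, ?_⟩
    rw [hzz, hαβ] at hw2
    refine hw2.trans (le_of_eq ?_)
    rw [hnz, hrρ]
    congr 1
    ring
  · intro c f hc hf
    obtain ⟨h1, h2⟩ := hresc _ f c hc hf 0
    set ρ : ℝ := 2 / (A * (K * c)) with hρ
    have hρ0 : 0 < ρ := by positivity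
    have hρc : (ρ : ℂ) ≠ 0 := by exact_mod_cast hρ0.ne'
    have hmem : BCw (TF F) c0 (fun z => Phi (f (aff 0 ρ z)).rep) :=
      ⟨h1.mono fun z _ => mem_univ _, fun z => (h2 z (mem_univ _)).1,
        fun z => (h2 z (mem_univ _)).2.1, fun z => (h2 z (mem_univ _)).2.2⟩
    obtain ⟨g, hg, α, β, hαβ⟩ := hS2 _ hmem
    obtain ⟨hα, -⟩ := hcls.alpha hmem (hS1 g hg) hαβ
    have hα0 : α ≠ 0 := by
      intro h0
      rw [h0, norm_zero] at hα
      linarith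
    refine ⟨g, hg, α / ρ, β, div_ne_zero hα0 hρc, fun z => ?_⟩
    have h1 := hαβ (z / ρ)
    rw [aff0 hρ0.ne'] at h1
    have h2 : α / ρ * z + β = α * (z / ρ) + β := by ring
    rw [h2, ← h1]

end Pool.Agent.N155.GD
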