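import Pool.Agent.N155.B.Rat
import Pool.Agent.N155.G.Half

/-! Curves of bounded distortion on discs, half-planes, the punctured disc and the plane. -/

set_option autoImplicit false

open Filter Topology Metric Set MvPolynomial LinearAlgebra.Projectivization

namespace Pool.Agent.N155.GD

open Pool.Agent.Y190.OP Pool.Agent.W602.GT Pool.Agent.TH143.GT Pool.Agent.N155
  Pool.Agent.N155.BB

variable {n : ℕ} {ι ι' : Type} {F : ι → MvPolynomial (Fin (n + 1)) ℂ}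
  {G : ι' → MvPolynomial (Fin (n + 1)) ℂ} {d : ℕ}
  {κ : Type} {η : κ → (Fin (n + 1) → ℂ) → (Fin (n + 1) → ℂ) → (Fin (n + 1) → ℂ) → ℂ}

theorem wedge_smul (u v : Fin (n + 1) → ℂ) (c : ℂ) : wedge u (c • v) = ‖c‖ * wedge u v := by
  unfold wedge
  have h1 : (∑ i, ∑ j, ‖u i * (c • v) j - u j * (c • v) i‖ ^ 2) =
      ‖c‖ ^ 2 * ∑ i, ∑ j, ‖u i * v j - u j * v i‖ ^ 2 := by
    rw [Finset.mul_sum]
    refine Finset.sum_congr rfl fun i _ => ?_
    rw [Finset.mul_sum]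
    refine Finset.sum_congr rfl fun j _ => ?_
    rw [← mul_pow, ← norm_mul, Pi.smul_apply, Pi.smul_apply, smul_eq_mul, smul_eq_mul]
    congr 2
    ring
  rw [h1, mul_div_assoc, Real.sqrt_mul (by positivity), Real.sqrt_sq (norm_nonneg _)]

/-- from the punctured disc to the half-plane -/
theorem hol_exp {c K : ℝ} {f : ℂ → ℙ ℂ (Fin (n + 1) → ℂ)}
    (hf : HolBetween F (ball 0 1 \ {0}) (fun z => c / ‖z‖) (fun z => K * c / ‖z‖) f) :
    HolBetween F {z | z.re < 0} (fun _ => c) (fun _ => K * c) (fun z => f (Complex.exp z)) := by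
  intro z hz
  have hz' : z.re < 0 := hz
  have hn : ‖Complex.exp z‖ = Real.exp z.re := Complex.norm_exp z
  have hmem : Complex.exp z ∈ ball (0 : ℂ) 1 \ {0} := by
    refine ⟨?_, Complex.exp_ne_zero z⟩
    rw [mem_ball_zero_iff, hn]
    exact Real.exp_lt_one_iff.2 hz'
  obtain ⟨h1, V, g, hV, hzV, hg, hfg, h2, h3⟩ := hf _ hmem
  have hpos : 0 < ‖Complex.exp z‖ := norm_pos_iff.2 (Complex.exp_ne_zero z)
  have hd : deriv (fun w => g (Complex.exp w)) z = Complex.exp z • deriv g (Complex.exp z) := by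
    have h4 := ((hg _ hzV).differentiableAt (hV.mem_nhds hzV)).hasDerivAt
    exact (h4.scomp z (Complex.hasDerivAt_exp z)).deriv
  refine ⟨h1, Complex.exp ⁻¹' V, fun w => g (Complex.exp w), hV.preimage Complex.continuous_exp,
    hzV, hg.comp Complex.differentiable_exp.differentiableOn (fun w hw => hw),
    fun w hw => hfg _ hw, ?_, ?_⟩
  · rw [hd, wedge_smul, mul_comm ‖Complex.exp z‖]
    have h4 := mul_le_mul_of_nonneg_right h2 hpos.le
    refine le_trans (le_of_eq ?_) h4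
    field_simp
  · rw [hd, wedge_smul, mul_comm ‖Complex.exp z‖]
    have h4 := mul_le_mul_of_nonneg_right h3 hpos.le
    refine h4.trans (le_of_eq ?_)
    field_simp

/-- **Curves of bounded distortion.** -/
theorem bounded_distortion (hX : ProjManifold F d) (hG : ∀ i, IsForm (G i))
    (hη : PositiveTwoForms (Cone F) (Cone G) d η) (hZ : NoBC F G) (K : ℝ) :
    ∃ (S : Finset (ℂ → ℙ ℂ (Fin (n + 1) → ℂ))) (R κ : ℝ), 0 < R ∧ 0 < κ ∧
      (∀ g ∈ S, HolIn F g ∧ DoublyPeriodic g) ∧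
      (∀ (a : ℂ) (r c : ℝ) (f : ℂ → ℙ ℂ (Fin (n + 1) → ℂ)), 0 < c → R ≤ c * r →
        HolBetween F (ball a r) (fun _ => c) (fun _ => K * c) f → ∃ g ∈ S, ∀ z : ℂ,
          c * ‖z - a‖ ≤ c * r - R →
            ∃ w : ℂ, chord (f z) (g w) ≤ Real.exp (-κ * (c ^ 2 * (r ^ 2 - ‖z - a‖ ^ 2)))) ∧
      (∀ (U : Set ℂ) (c : ℝ) (f : ℂ → ℙ ℂ (Fin (n + 1) → ℂ)), IsOpen U → IsPreconnected U →
        HasHalfPlane U → 0 < c → HolBetween F U (fun _ => c) (fun _ => K * c) f →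
        ∃ g ∈ S, ∀ z ∈ U, ∃ w : ℂ, f z = g w) ∧
      (∀ (c : ℝ) (f : ℂ → ℙ ℂ (Fin (n + 1) → ℂ)), 0 < c →
        HolBetween F (ball 0 1 \ {0}) (fun z => c / ‖z‖) (fun z => K * c / ‖z‖) f →
        ∃ g ∈ S, ∀ z ∈ ball (0 : ℂ) 1 \ {0}, ∃ w : ℂ, f z = g w) ∧
      ∀ (c : ℝ) (f : ℂ → ℙ ℂ (Fin (n + 1) → ℂ)), 0 < c →
        HolBetween F univ (fun _ => c) (fun _ => K * c) f →
        ∃ g ∈ S, ∃ a b : ℂ, a ≠ 0 ∧ ∀ z, f z = g (a * z + b) := by
  classical
  set K' : ℝ := max K 1 with hK'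
  have hK'0 : 0 < K' := lt_of_lt_of_le one_pos (le_max_right _ _)
  have hKK : K ≤ K' := le_max_left _ _
  obtain ⟨c0, S, R1, κ1, hc0, hR1, hκ1, hS, hdisc, hent⟩ := disc_mat hX hG hη hZ hK'0
  set C1 : ℝ := 2 * ((n : ℝ) + 1) ^ 2 with hC1
  have hC1p : 0 < C1 := by positivity
  set R2 : ℝ := max R1 (max 1 (2 * C1 / κ1)) with hR2
  have hR2a : R1 ≤ R2 := le_max_left _ _
  have hR2b : 1 ≤ R2 := (le_max_left _ _).trans (le_max_right _ _)
  have hR2c : 2 * C1 / κ1 ≤ R2 := (le_max_right _ _).trans (le_max_right _ _)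
  have hhalf : ∀ (U : Set ℂ) (c : ℝ) (f : ℂ → ℙ ℂ (Fin (n + 1) → ℂ)), IsOpen U →
      IsPreconnected U → HasHalfPlane U → 0 < c → HolBetween F U (fun _ => c) (fun _ => K * c) f →
      ∃ g ∈ S.image fun φ z => toProj (φ z), ∀ z ∈ U, ∃ w : ℂ, f z = g w := by
    intro U c f hU hUc hUh hc hf
    obtain ⟨g, hg, hgf⟩ := half_mat hX.form hc0 hR1 hκ1 hS hdisc hU hUc hUh hc
      (hf.mono fun z _ => mul_le_mul_of_nonneg_right hKK hc.le)
    refine ⟨_, Finset.mem_image_of_mem _ hg, fun z hz => ?_⟩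
    obtain ⟨w, hw⟩ := hgf z hz
    exact ⟨w, by rw [← hw, toProj_Phi_rep]⟩
  refine ⟨S.image fun φ z => toProj (φ z), R2, κ1 / 2, by linarith, by positivity,
    fun g hg => ?_, fun a r c f hc hR hf => ?_, hhalf, fun c f hc hf => ?_, fun c f hc hf => ?_⟩
  · obtain ⟨φ, hφ, rfl⟩ := Finset.mem_image.1 hg
    obtain ⟨h1, p, q, hind, hp, hq⟩ := hS φ hφ
    refine ⟨⟨holMap_of h1.hol, fun z => rep_toProj hX.form (h1.mem z)⟩, ?_⟩
    obtain ⟨L, hL⟩ := pair_periods hind hp hq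
    exact ⟨L, fun l hl z => by
      change toProj (φ (z + l)) = toProj (φ z)
      rw [hL l hl z]⟩
  · obtain ⟨g, hg, hgf⟩ := hdisc a r c f hc (hR2a.trans hR)
      (hf.mono fun z _ => mul_le_mul_of_nonneg_right hKK hc.le)
    refine ⟨_, Finset.mem_image_of_mem _ hg, fun z hz => ?_⟩
    obtain ⟨w, hw⟩ := hgf z (by linarith)
    refine ⟨w, (chord_le _ _).trans ?_⟩
    rw [Phi_rep_toProj (TF_PM ((hS g hg).1.mem w))]
    set t : ℝ := c ^ 2 * (r ^ 2 - ‖z - a‖ ^ 2) with ht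
    have hcz : 0 ≤ c * ‖z - a‖ := by positivity
    have ht1 : R2 ≤ t := by
      have h1 : t = (c * r - c * ‖z - a‖) * (c * r + c * ‖z - a‖) := by
        rw [ht]
        ring
      rw [h1]
      have h2 : R2 ≤ c * r - c * ‖z - a‖ := by linarith
      have h3 : 1 ≤ c * r + c * ‖z - a‖ := by linarith
      nlinarith
    have hCe : C1 ≤ Real.exp (κ1 / 2 * t) := by
      have h1 : C1 ≤ κ1 / 2 * t := by
        rw [div_le_iff₀ hκ1] at hR2c
        nlinarith
      have h2 := Real.add_one_le_exp (κ1 / 2 * t)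
      linarith
    calc C1 * ‖Phi (f z).rep - g w‖ ≤ Real.exp (κ1 / 2 * t) * Real.exp (-κ1 * t) :=
        mul_le_mul hCe hw (norm_nonneg _) (Real.exp_pos _).le
      _ = Real.exp (-(κ1 / 2) * t) := by
        rw [← Real.exp_add]
        congr 1
        ring
  · obtain ⟨g, hg, hgf⟩ := hhalf {z | z.re < 0} c (fun z => f (Complex.exp z))
      (isOpen_lt Complex.continuous_re continuous_const) (convex_halfSpace_re_lt 0).isPreconnected
      ⟨-1, 0, neg_ne_zero.2 one_ne_zero, fun z hz => by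
        rw [neg_one_mul, Complex.neg_re] at hz
        change z.re < 0
        linarith⟩ hc (hol_exp hf)
    refine ⟨g, hg, fun z hz => ?_⟩
    have hz0 : z ≠ 0 := hz.2
    obtain ⟨w, hw⟩ := hgf (Complex.log z) (by
      change (Complex.log z).re < 0
      rw [Complex.log_re]
      exact Real.log_neg (norm_pos_iff.2 hz0) (mem_ball_zero_iff.1 hz.1))
    exact ⟨w, by rw [← hw, Complex.exp_log hz0]⟩
  · obtain ⟨g, hg, a, b, ha, hab⟩ := hent c f hc
      (hf.mono fun z _ => mul_le_mul_of_nonneg_right hKK hc.le)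
    refine ⟨_, Finset.mem_image_of_mem _ hg, a, b, ha, fun z => ?_⟩
    rw [← hab z, toProj_Phi_rep]

end Pool.Agent.N155.GD
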