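import Pool.Agent.N155.B.Gw

/-! Deformations of a curve in a projective manifold, up to reparametrisations, the first curves
being defined on discs only. -/

set_option autoImplicit false

open Filter Topology Metric Set MvPolynomial

namespace Pool.Agent.N155.GD

open Pool.Agent.Y190.OP Pool.Agent.N155 Pool.Agent.N155.BB

variable {N : ℕ}

/-- a deformation of the curve `χ`, up to reparametrisations -/
structure RGd (T : Set (Mat N)) (𝓤 : Ultrafilter ℕ) (χ : ℂ → Mat N)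
    (P Q : ℕ → ℂ → Mat N) (s wt : ℕ → ℂ → ℂ) (B C0 : ℝ) : Prop where
  hP : ∀ L : ℝ, ∀ᶠ m in (𝓤 : Filter ℕ), HolP (ball 0 L) (P m)
  mP : ∀ L : ℝ, ∀ᶠ m in (𝓤 : Filter ℕ), ∀ z ∈ ball (0 : ℂ) L, P m z ∈ T
  hQ : ∀ m, HolP univ (Q m)
  mQ : ∀ m z, Q m z ∈ T
  hχ : HolP univ χ
  mχ : ∀ z, χ z ∈ T
  im : ∀ z, fderiv ℝ χ z ≠ 0
  bχ : ∀ z, ‖fderiv ℝ χ z‖ ≤ B
  bQ : ∀ m z, ‖fderiv ℝ (Q m) z‖ ≤ B
  lP : CConv (𝓤 : Filter ℕ) univ P χ
  lQ : CConv (𝓤 : Filter ℕ) univ Q χ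
  ls : CConv (𝓤 : Filter ℕ) univ s (fun _ => 0)
  wd : ∀ m, Differentiable ℂ (wt m)
  bd : ∀ L : ℝ, ∀ᶠ m in (𝓤 : Filter ℕ), ∀ z ∈ closedBall (0 : ℂ) L,
    ‖Q m (z + s m z) - P m z‖ * ‖wt m z‖ ≤ C0

variable {T : Set (Mat N)} {𝓤 : Ultrafilter ℕ} {χ : ℂ → Mat N}
  {P Q : ℕ → ℂ → Mat N} {s wt : ℕ → ℂ → ℂ} {B C0 : ℝ}

theorem RGd.cont (h : RGd T 𝓤 χ P Q s wt B C0) : Continuous χ :=
  continuous_iff_continuousAt.2 fun _ => h.hχ.continuousAt (mem_univ _)

theorem RGd.mPt (h : RGd T 𝓤 χ P Q s wt B C0) (z : ℂ) :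
    ∀ᶠ m in (𝓤 : Filter ℕ), P m z ∈ T := by
  filter_upwards [h.mP (‖z‖ + 1)] with m hm
  exact hm z (mem_ball_zero_iff.2 (lt_add_one _))

theorem RGd.tP (h : RGd T 𝓤 χ P Q s wt B C0) (z : ℂ) :
    Tendsto (fun m => P m z) 𝓤 (𝓝 (χ z)) := h.lP.pointwise (mem_univ z)

theorem RGd.ts (h : RGd T 𝓤 χ P Q s wt B C0) (z : ℂ) :
    Tendsto (fun m => s m z) 𝓤 (𝓝 0) := h.ls.pointwise (mem_univ z)

theorem RGd.tQ (h : RGd T 𝓤 χ P Q s wt B C0) (z : ℂ) :
    Tendsto (fun m => Q m (z + s m z)) 𝓤 (𝓝 (χ z)) := by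
  apply CConv.seq h.lQ (mem_univ z)
  have := (h.ts z).const_add z
  rwa [add_zero] at this

theorem RGd.bdz (h : RGd T 𝓤 χ P Q s wt B C0) (z : ℂ) :
    ∀ᶠ m in (𝓤 : Filter ℕ), ‖Q m (z + s m z) - P m z‖ * ‖wt m z‖ ≤ C0 := by
  filter_upwards [h.bd ‖z‖] with m hm
  exact hm z (mem_closedBall_zero_iff.2 le_rfl)

theorem RGd.C0_nonneg (h : RGd T 𝓤 χ P Q s wt B C0) : 0 ≤ C0 := by
  obtain ⟨m, hm⟩ := (h.bdz 0).exists
  exact le_trans (by positivity) hm

theorem RGd.B_nonneg (h : RGd T 𝓤 χ P Q s wt B C0) : 0 ≤ B := (norm_nonneg _).trans (h.bχ 0)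

theorem RGd.lipQ (h : RGd T 𝓤 χ P Q s wt B C0) (m : ℕ) (z w : ℂ) :
    ‖Q m w - Q m z‖ ≤ B * ‖w - z‖ :=
  (convex_univ).norm_image_sub_le_of_norm_fderiv_le
    (fun x _ => (h.hQ m).differentiableAt (mem_univ x)) (fun x _ => h.bQ m x) (mem_univ z)
    (mem_univ w)

/-- the limit vector exists -/
theorem RGd.Vt (h : RGd T 𝓤 χ P Q s wt B C0) (i : Fin N) {t : ℂ} {L : ℝ} {O : Set (Mat N)}
    (hL : 0 ≤ L) (hO : IsOpen O) (hMO : χ t ∈ O)
    (hlip : ∀ M ∈ O, ∀ M' ∈ O, ‖chart i M - chart i M'‖ ≤ L * ‖M - M'‖) :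
    Tendsto (fun m => wt m t • (chart i (Q m (t + s m t)) - chart i (P m t))) 𝓤
      (𝓝 (Vv 𝓤 P Q s wt i t)) ∧ ‖Vv 𝓤 P Q s wt i t‖ ≤ L * C0 := by
  have hOn : O ∈ 𝓝 (χ t) := hO.mem_nhds hMO
  obtain ⟨v, hv, hvt⟩ := exists_lim_pi (𝓤 := 𝓤)
    (h := fun m => wt m t • (chart i (Q m (t + s m t)) - chart i (P m t))) (C := L * C0) (by
      filter_upwards [(h.tP t).eventually hOn, (h.tQ t).eventually hOn, h.bdz t] with m h1 h2 h3
      rw [norm_smul]
      calc ‖wt m t‖ * ‖chart i (Q m (t + s m t)) - chart i (P m t)‖ ≤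
            ‖wt m t‖ * (L * ‖Q m (t + s m t) - P m t‖) :=
            mul_le_mul_of_nonneg_left (hlip _ h2 _ h1) (norm_nonneg _)
        _ = L * (‖Q m (t + s m t) - P m t‖ * ‖wt m t‖) := by ring
        _ ≤ L * C0 := mul_le_mul_of_nonneg_left h3 hL)
  have h1 : Vv 𝓤 P Q s wt i t = v := hvt.limUnder_eq
  rw [h1]
  exact ⟨hvt, hv⟩

theorem RGd.Vten (h : RGd T 𝓤 χ P Q s wt B C0) (i : Fin N) {t : ℂ} (hi : χ t i i ≠ 0) :
    Tendsto (fun m => wt m t • (chart i (Q m (t + s m t)) - chart i (P m t))) 𝓤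
      (𝓝 (Vv 𝓤 P Q s wt i t)) := by
  obtain ⟨L, O, hL, hO, hMO, -, hlip, -⟩ := lip_chart hi
  exact (h.Vt i hL hO hMO hlip).1

/-- sequences near a point at which the shifts are small -/
theorem RGd.small (h : RGd T 𝓤 χ P Q s wt B C0) (z0 : ℂ) {ρ : ℝ} (hρ : 0 < ρ) :
    ∃ V : Set ℂ, IsOpen V ∧ z0 ∈ V ∧ ∀ᶠ m in (𝓤 : Filter ℕ), ∀ z ∈ V, z + s m z ∈ ball z0 ρ := by
  have h1 : ∀ᶠ p : ℕ × ℂ in (𝓤 : Filter ℕ) ×ˢ 𝓝 z0, s p.1 p.2 ∈ ball (0 : ℂ) (ρ / 2) :=
    (h.ls z0 (mem_univ z0)).eventually (ball_mem_nhds _ (by positivity))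
  rw [eventually_prod_iff] at h1
  obtain ⟨pa, hpa, pb, hpb, hab⟩ := h1
  obtain ⟨V, hVsub, hV, hzV⟩ := _root_.mem_nhds_iff.1 (inter_mem hpb
    (ball_mem_nhds z0 (show 0 < ρ / 2 by positivity)))
  refine ⟨V, hV, hzV, ?_⟩
  filter_upwards [hpa] with m hm z hz
  have h2 := hab hm (hVsub hz).1
  have h3 := (hVsub hz).2
  rw [mem_ball_zero_iff] at h2
  rw [mem_ball, dist_eq_norm] at h3 ⊢
  have e1 : z + s m z - z0 = (z - z0) + s m z := by ring
  rw [e1]
  refine (norm_add_le _ _).trans_lt ?_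
  simp only at h2
  linarith

/-- the local holomorphic representatives of the normal component -/
theorem RGd.rep (h : RGd T 𝓤 χ P Q s wt B C0) {i : Fin N} {z0 : ℂ} (hi : χ z0 i i ≠ 0) :
    ∃ (V : Set ℂ) (a : Fin N) (g : ℕ → ℂ → ℂ) (Nn : ℂ → Fin N → ℂ) (β : ℂ → ℂ), IsOpen V ∧
      z0 ∈ V ∧ ∀ z ∈ V, χ z i i ≠ 0 ∧ AnalyticAt ℂ Nn z ∧
      Nn z a = 0 ∧ (z = z0 → deriv (fun w => chart i (χ w)) z a ≠ 0) ∧
      Tendsto (fun m => g m z) 𝓤 (𝓝 z) ∧
      Tendsto (fun m => wt m z • (chart i (Q m (g m z)) - chart i (P m z))) 𝓤 (𝓝 (Nn z)) ∧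
      Vv 𝓤 P Q s wt i z = Nn z + β z • deriv (fun w => chart i (χ w)) z := by
  obtain ⟨L, O, hL, hO, hMO, hOi, hlip, -⟩ := lip_chart hi
  have hdne := deriv_chart_ne h.hχ i hi (h.im z0)
  obtain ⟨a, ha⟩ := Function.ne_iff.1 hdne
  have hdiff0 : ∀ w, χ w i i ≠ 0 → ∀ r, HasDerivAt (fun w => chart i (χ w) r)
      (deriv (fun w => chart i (χ w)) w r) w := fun w hw r =>
    (hasDerivAt_pi.1 (h.hχ.diff_chart (mem_univ w) hw).hasDerivAt) r
  have hdr : ∀ w, χ w i i ≠ 0 → ∀ r, deriv (fun w => chart i (χ w) r) w =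
      deriv (fun w => chart i (χ w)) w r := fun w hw r => (hdiff0 w hw r).deriv
  have hpiv : deriv (fun w => chart i (χ w) a) z0 ≠ 0 := by
    rw [hdr z0 hi]
    exact ha
  have hUo : IsOpen {w | χ w i i ≠ 0} :=
    isOpen_ne_fun ((continuous_apply_apply i i).comp h.cont) continuous_const
  -- the neighbourhoods
  obtain ⟨V0, hV0, hz0V0, hm0⟩ := cc_mem h.lQ (hO.mem_nhds hMO)
  obtain ⟨ρ0, hρ0, hρ0V⟩ := Metric.isOpen_iff.1 hV0 z0 hz0V0
  obtain ⟨ρ, σ, hρ, hρρ, hσ, hinv⟩ := loc_inv (cc_chart h.lQ i a) hUo hi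
    (cc_chart_diff h.lQ h.hQ i a hi) hpiv hρ0
  set A0 : ℂ := chart i (χ z0) a with hA0
  have hO1 : O ∩ {M | chart i M a ∈ ball A0 σ} ∈ 𝓝 (χ z0) :=
    inter_mem (hO.mem_nhds hMO)
      (((continuous_apply a).continuousAt.comp (continuousAt_chart hi)).eventually
        (ball_mem_nhds _ hσ))
  obtain ⟨V1, hV1, hz0V1, hm1⟩ := cc_mem h.lP hO1
  obtain ⟨V2, hV2, hz0V2, hm2⟩ := h.small z0 hρ
  have hV3 : IsOpen (χ ⁻¹' O) := hO.preimage h.cont
  obtain ⟨ρ1, hρ1, hsub⟩ := Metric.isOpen_iff.1 ((((hV1.inter hV2).inter hV3).inter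
    (isOpen_ball (x := z0) (ε := 1)))) z0 ⟨⟨⟨hz0V1, hz0V2⟩, hMO⟩, mem_ball_self one_pos⟩
  set V := ball z0 ρ1 with hV
  have hbd := h.bd (‖z0‖ + 1)
  set al : ℝ := ‖deriv (fun w => chart i (χ w) a) z0‖ with hal
  have halpos : 0 < al := norm_pos_iff.2 hpiv
  have hB := h.B_nonneg
  have hC0 := h.C0_nonneg
  -- the inverse functions
  have hIex : ∀ m, ∃ I : ℂ → ℂ, (∃ I : ℂ → ℂ, DifferentiableOn ℂ I (ball A0 σ) ∧
      ∀ v ∈ ball A0 σ, I v ∈ ball z0 ρ ∧ chart i (Q m (I v)) a = v) →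
      DifferentiableOn ℂ I (ball A0 σ) ∧
      ∀ v ∈ ball A0 σ, I v ∈ ball z0 ρ ∧ chart i (Q m (I v)) a = v := by
    intro m
    by_cases hI : ∃ I : ℂ → ℂ, DifferentiableOn ℂ I (ball A0 σ) ∧
      ∀ v ∈ ball A0 σ, I v ∈ ball z0 ρ ∧ chart i (Q m (I v)) a = v
    · obtain ⟨I, hI⟩ := hI
      exact ⟨I, fun _ => hI⟩
    · exact ⟨fun _ => 0, fun h => absurd h hI⟩
  choose I hI using hIex
  set g : ℕ → ℂ → ℂ := fun m z => I m (chart i (P m z) a) with hg
  set Nm : ℕ → ℂ → Fin N → ℂ := fun m z => wt m z • (chart i (Q m (g m z)) - chart i (P m z))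
    with hNm
  -- the main estimates
  have hmain : ∀ᶠ m in (𝓤 : Filter ℕ), (∀ b, DifferentiableOn ℂ (fun z => Nm m z b) V) ∧
      ∀ z ∈ V, g m z ∈ ball z0 ρ ∧ z + s m z ∈ ball z0 ρ ∧ P m z ∈ O ∧
      chart i (Q m (g m z)) a = chart i (P m z) a ∧
      Q m (g m z) ∈ O ∧ Q m (z + s m z) ∈ O ∧
      ‖z + s m z - g m z‖ ≤ 2 * L / al * ‖Q m (z + s m z) - P m z‖ ∧
      ‖Q m (z + s m z) - P m z‖ * ‖wt m z‖ ≤ C0 ∧
      ‖Nm m z‖ ≤ (L + L * (B * (2 * L / al))) * C0 := by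
    filter_upwards [hinv, hm0, hm1, hm2, hbd, h.hP (‖z0‖ + 1)] with m k1 k2 k3 k4 k5 kP
    obtain ⟨k6, k7, k8⟩ := k1
    obtain ⟨k9, k10⟩ := hI m k8
    have hPv : ∀ z ∈ V, chart i (P m z) a ∈ ball A0 σ := fun z hz =>
      (k3 z (hsub hz).1.1.1).2
    have hgz : ∀ z ∈ V, g m z ∈ ball z0 ρ := fun z hz => (k10 _ (hPv z hz)).1
    have hQg : ∀ z ∈ V, Q m (g m z) ∈ O := fun z hz =>
      k2 _ (hρ0V (ball_subset_ball hρρ (hgz z hz)))
    refine ⟨?_, ?_⟩
    · intro b z hz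
      apply DifferentiableAt.differentiableWithinAt
      have hPnz := hOi _ (k3 z (hsub hz).1.1.1).1
      have d1 : ∀ r, DifferentiableAt ℂ (fun z => chart i (P m z) r) z :=
        differentiableAt_pi.1 (kP.diff_chart (by
          rw [mem_ball_zero_iff]
          have h1 := (hsub hz).2
          rw [mem_ball, dist_eq_norm] at h1
          have h2 := norm_add_le (z - z0) z0
          rw [sub_add_cancel] at h2
          linarith) hPnz)
      have d2 : DifferentiableAt ℂ (I m) (chart i (P m z) a) :=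
        (k9 _ (hPv z hz)).differentiableAt (isOpen_ball.mem_nhds (hPv z hz))
      have d3 : DifferentiableAt ℂ (g m) z := DifferentiableAt.comp z d2 (d1 a)
      have d4 : DifferentiableAt ℂ (fun w => chart i (Q m w) b) (g m z) :=
        differentiableAt_pi.1 ((h.hQ m).diff_chart (mem_univ _) (hOi _ (hQg z hz))) b
      exact ((h.wd m) z).mul ((DifferentiableAt.comp z d4 d3).sub (d1 b))
    · intro z hz
      have hPO := (k3 z (hsub hz).1.1.1).1
      have hzs := k4 z (hsub hz).1.1.2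
      have hQs : Q m (z + s m z) ∈ O := k2 _ (hρ0V (ball_subset_ball hρρ hzs))
      have heq : chart i (Q m (g m z)) a = chart i (P m z) a := (k10 _ (hPv z hz)).2
      have e1 : ‖z + s m z - g m z‖ ≤ 2 * L / al * ‖Q m (z + s m z) - P m z‖ := by
        have h1 := k7 _ hzs _ (hgz z hz)
        rw [heq] at h1
        have h2 := (norm_le_pi_norm (chart i (Q m (z + s m z)) - chart i (P m z)) a).trans
          (hlip _ hQs _ hPO)
        have h3 : al / 2 * ‖z + s m z - g m z‖ ≤ L * ‖Q m (z + s m z) - P m z‖ := h1.trans h2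
        rw [div_mul_eq_mul_div, le_div_iff₀ halpos]
        linarith
      have hzL : z ∈ closedBall (0 : ℂ) (‖z0‖ + 1) := by
        rw [mem_closedBall_zero_iff]
        have h1 := (hsub hz).2
        rw [mem_ball, dist_eq_norm] at h1
        have h2 := norm_add_le (z - z0) z0
        rw [sub_add_cancel] at h2
        linarith
      have e2 := k5 z hzL
      refine ⟨hgz z hz, hzs, hPO, heq, hQg z hz, hQs, e1, e2, ?_⟩
      have e3 := hlip _ (hQg z hz) _ hQs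
      have e4 := h.lipQ m (z + s m z) (g m z)
      have e5 := hlip _ hQs _ hPO
      have e6 : ‖chart i (Q m (g m z)) - chart i (P m z)‖ ≤
          (L + L * (B * (2 * L / al))) * ‖Q m (z + s m z) - P m z‖ := by
        have e7 : chart i (Q m (g m z)) - chart i (P m z) =
            (chart i (Q m (g m z)) - chart i (Q m (z + s m z))) +
            (chart i (Q m (z + s m z)) - chart i (P m z)) := by abel
        rw [e7]
        refine (norm_add_le _ _).trans ?_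
        rw [norm_sub_rev (g m z)] at e4
        have e8 : L * ‖Q m (g m z) - Q m (z + s m z)‖ ≤
            L * (B * (2 * L / al * ‖Q m (z + s m z) - P m z‖)) :=
          mul_le_mul_of_nonneg_left (e4.trans (mul_le_mul_of_nonneg_left e1 hB)) hL
        have e9 : (L + L * (B * (2 * L / al))) * ‖Q m (z + s m z) - P m z‖ =
            L * (B * (2 * L / al * ‖Q m (z + s m z) - P m z‖)) +
              L * ‖Q m (z + s m z) - P m z‖ := by ring
        rw [e9]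
        exact add_le_add (e3.trans e8) e5
      change ‖wt m z • (chart i (Q m (g m z)) - chart i (P m z))‖ ≤ _
      rw [norm_smul, mul_comm]
      calc _ ≤ (L + L * (B * (2 * L / al))) * ‖Q m (z + s m z) - P m z‖ * ‖wt m z‖ :=
            mul_le_mul_of_nonneg_right e6 (norm_nonneg _)
        _ = (L + L * (B * (2 * L / al))) * (‖Q m (z + s m z) - P m z‖ * ‖wt m z‖) := by
            ring
        _ ≤ _ := mul_le_mul_of_nonneg_left e2 (by positivity)
  -- the limit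
  have hmon : ∀ b : Fin N, ∃ K : ℂ → ℂ, CConv (𝓤 : Filter ℕ) V (fun m z => Nm m z b) K := by
    intro b
    apply ultra_montel
    intro z hz
    refine ⟨V, isOpen_ball.mem_nhds hz, (L + L * (B * (2 * L / al))) * C0, ?_⟩
    filter_upwards [hmain] with m hm
    exact ⟨hm.1 b, fun w hw => (norm_le_pi_norm (Nm m w) b).trans
      (hm.2 w hw).2.2.2.2.2.2.2.2⟩
  choose K hK using hmon
  have hKan : ∀ z ∈ V, AnalyticAt ℂ (fun t b => K b t) z := fun z hz =>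
    analyticAt_pi_iff.2 fun b => (CConv.an (hK b) isOpen_ball hz
      ⟨V, isOpen_ball.mem_nhds hz, hmain.mono fun m hm => hm.1 b⟩).1
  have hz0V : z0 ∈ V := mem_ball_self hρ1
  have hβex : ∀ z : ℂ, ∃ β : ℂ, z ∈ V → Tendsto (fun m => g m z) 𝓤 (𝓝 z) ∧
      Vv 𝓤 P Q s wt i z = (fun b => K b z) + β • deriv (fun w => chart i (χ w)) z := by
    intro z
    by_cases hz : z ∈ V
    swap
    · exact ⟨0, fun h => absurd h hz⟩
    have hzO : χ z ∈ O := (hsub hz).1.2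
    have hnz := hOi _ hzO
    have hdiff : Tendsto (fun m => ‖Q m (z + s m z) - P m z‖) 𝓤 (𝓝 0) := by
      have := ((h.tQ z).sub (h.tP z)).norm
      rwa [sub_self, norm_zero] at this
    have hem0 : Tendsto (fun m => z + s m z - g m z) 𝓤 (𝓝 0) := by
      rw [tendsto_zero_iff_norm_tendsto_zero]
      have h1 := hdiff.const_mul (2 * L / al)
      rw [mul_zero] at h1
      refine squeeze_zero' (Eventually.of_forall fun _ => norm_nonneg _) ?_ h1
      filter_upwards [hmain] with m hm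
      exact (hm.2 z hz).2.2.2.2.2.2.1
    have hzs : Tendsto (fun m => z + s m z) 𝓤 (𝓝 z) := by
      have := (h.ts z).const_add z
      rwa [add_zero] at this
    have hgz : Tendsto (fun m => g m z) 𝓤 (𝓝 z) := by
      have := hzs.sub hem0
      rw [sub_zero] at this
      refine this.congr fun m => ?_
      ring
    obtain ⟨β, hβ⟩ := exists_lim (𝓤 := 𝓤) (h := fun m => (z + s m z - g m z) * wt m z)
      (C := 2 * L / al * C0) (by
        filter_upwards [hmain] with m hm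
        obtain ⟨-, -, -, -, -, -, k7, k8, -⟩ := hm.2 z hz
        rw [norm_mul]
        calc _ ≤ 2 * L / al * ‖Q m (z + s m z) - P m z‖ * ‖wt m z‖ :=
              mul_le_mul_of_nonneg_right k7 (norm_nonneg _)
          _ = 2 * L / al * (‖Q m (z + s m z) - P m z‖ * ‖wt m z‖) := by ring
          _ ≤ _ := mul_le_mul_of_nonneg_left k8 (by positivity))
    refine ⟨β, fun _ => ⟨hgz, ?_⟩⟩
    funext r
    have h1 := quot_seq (cc_chart h.lQ i r) hUo hnz
      (cc_chart_diff h.lQ h.hQ i r hnz) (z := fun m => g m z)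
      (s := fun m => z + s m z - g m z) (w := fun m => wt m z) hgz hem0 hβ
    rw [hdr z hnz] at h1
    have h2 := tendsto_pi_nhds.1 (h.Vten i hnz) r
    refine tendsto_nhds_unique h2 ?_
    have h3 := ((hK r).pointwise hz).add h1
    refine h3.congr fun m => ?_
    have e1 : g m z + (z + s m z - g m z) = z + s m z := by ring
    rw [e1]
    change wt m z * (chart i (Q m (g m z)) r - chart i (P m z) r) + _ =
      wt m z * (chart i (Q m (z + s m z)) r - chart i (P m z) r)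
    ring
  choose β hβ using hβex
  have hKt : ∀ z ∈ V, Tendsto (fun m => Nm m z) 𝓤 (𝓝 (fun b => K b z)) := fun z hz =>
    tendsto_pi_nhds.2 fun b => (hK b).pointwise hz
  refine ⟨V, a, g, fun z b => K b z, β, isOpen_ball, hz0V, fun z hz => ⟨hOi _ (hsub hz).1.2,
    hKan z hz, ?_, fun hzz => ?_, (hβ z hz).1, hKt z hz, (hβ z hz).2⟩⟩
  · have h1 : Tendsto (fun m => Nm m z a) 𝓤 (𝓝 (K a z)) := (hK a).pointwise hz
    have h2 : Tendsto (fun _ : ℕ => (0 : ℂ)) 𝓤 (𝓝 (K a z)) := by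
      refine h1.congr' ?_
      filter_upwards [hmain] with m hm
      change wt m z * (chart i (Q m (g m z)) a - chart i (P m z) a) = 0
      rw [(hm.2 z hz).2.2.2.1, sub_self, mul_zero]
    exact (tendsto_nhds_unique h2 tendsto_const_nhds)
  · rw [hzz]
    exact ha

end Pool.Agent.N155.GD
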